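import Mathlib

/-!
# Determinants attached to divisors `n` of `b` with `n + b / n + a = m ^ 2`
-/

set_option autoImplicit false

namespace Pool.Agent.Lib.MP_6179b0_nt.T

open Finset

/-- degree of the `j`-th function: `0, 1, ..., D, 1, ..., D - 1` for `j = 0, ..., 2 * D - 1` -/
def dg (D j : ℕ) : ℕ := if j ≤ D then j else j - D

/-- the `j`-th function: `n ^ j` for `j ≤ D` and `n ^ (j - D) * m` for `j > D` -/
def fn {R : Type} [CommRing R] (D j : ℕ) (n m : R) : R := n ^ dg D j * (if j ≤ D then 1 else m)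

/-- the matrix of the functions at the points `(n k, m k)` -/
def mat {R : Type} [CommRing R] (D : ℕ) (n m : Fin (2 * D) → R) : Matrix (Fin (2 * D)) (Fin (2 * D)) R :=
  Matrix.of fun k j => fn D j (n k) (m k)

/-- pairs `(i, l)` with `i + l < K` -/
def prs (K : ℕ) : Finset (ℕ × ℕ) := (range K ×ˢ range K).filter fun q => q.1 + q.2 < K

/-- coefficient of `n ^ (i - l)` in the expansion of `√(a + n + b / n)` -/
noncomputable def tc (c : ℕ → ℝ) (a b : ℝ) (i l : ℕ) : ℝ :=
  √a * (c (i + l) * ((i + l).choose i : ℝ) * b ^ l / a ^ (i + l))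

/-- the error term of the expansion of `√(a + n + b / n)` -/
noncomputable def rm (c : ℕ → ℝ) (K : ℕ) (a b n : ℝ) : ℝ :=
  √a * (√(1 + (n + b / n) / a) - ∑ k ∈ range K, c k * ((n + b / n) / a) ^ k)

end Pool.Agent.Lib.MP_6179b0_nt.T
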