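import Mathlib
import Pool.Agent.Lib.MP_6179b0_nt.T.TDefs

/-!
# Divisibility of the determinant
-/

set_option autoImplicit false

namespace Pool.Agent.Lib.MP_6179b0_nt.T

open Finset

theorem TDvd_sum (D : ℕ) (f : ℕ → ℕ) : ∑ j : Fin (2 * D), f (dg D j) =
    ∑ i ∈ range D, f i + ∑ i ∈ range D, f (i + 1) := by
  rcases Nat.eq_zero_or_pos D with rfl | hD
  · simp
  rw [Fin.sum_univ_eq_sum_range (fun j => f (dg D j)) (2 * D)]
  obtain ⟨e, rfl⟩ : ∃ e, D = e + 1 := ⟨D - 1, by omega⟩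
  have h1 : 2 * (e + 1) = (e + 2) + e := by ring
  rw [h1, Finset.sum_range_add]
  have h2 : ∑ j ∈ range (e + 2), f (dg (e + 1) j) = ∑ i ∈ range (e + 2), f i := by
    apply Finset.sum_congr rfl
    intro i hi
    rw [Finset.mem_range] at hi
    simp only [dg]
    rw [if_pos (by omega)]
  have h3 : ∑ j ∈ range e, f (dg (e + 1) (e + 2 + j)) = ∑ i ∈ range e, f (i + 1) := by
    apply Finset.sum_congr rfl
    intro i _
    simp only [dg]
    rw [if_neg (by omega)]
    congr 1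
    omega
  rw [h2, h3, Finset.sum_range_succ _ (e + 1), Finset.sum_range_succ (fun i => f (i + 1)) e]
  ring

theorem sum_dg (D : ℕ) : ∑ j : Fin (2 * D), dg D j = D ^ 2 := by
  have h := TDvd_sum D (fun i => i)
  rw [h]
  induction D with
  | zero => simp
  | succ D ih =>
    have ih' := ih (TDvd_sum D (fun i => i))
    rw [Finset.sum_range_succ, Finset.sum_range_succ]
    nlinarith

theorem TDvd_sub (τ k : ℕ) : ∑ i ∈ range (τ + k), (τ - i) + ∑ i ∈ range (τ + k), (τ - (i + 1)) = τ ^ 2 := by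
  induction k with
  | zero =>
    rw [Nat.add_zero]
    induction τ with
    | zero => simp
    | succ τ ih =>
      rw [Finset.sum_range_succ', Finset.sum_range_succ]
      have h1 : ∑ i ∈ range τ, (τ + 1 - (i + 1)) = ∑ i ∈ range τ, (τ - i) :=
        Finset.sum_congr rfl fun i _ => by omega
      have h3 : ∑ i ∈ range τ, (τ - i) = ∑ i ∈ range τ, (τ - (i + 1)) + τ := by
        have : ∀ i ∈ range τ, τ - i = (τ - (i + 1)) + 1 := by
          intro i hi
          rw [Finset.mem_range] at hi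
          omega
        rw [Finset.sum_congr rfl this, Finset.sum_add_distrib]
        simp
      rw [h1]
      simp only [Nat.sub_self, Nat.sub_zero, add_zero]
      nlinarith
  | succ k ih =>
    rw [← Nat.add_assoc, Finset.sum_range_succ, Finset.sum_range_succ]
    have h1 : τ - (τ + k) = 0 := by omega
    have h2 : τ - (τ + k + 1) = 0 := by omega
    rw [h1, h2, add_zero, add_zero]
    exact ih

theorem sum_sub_dg (D τ : ℕ) (hτ : τ ≤ D) : ∑ j : Fin (2 * D), (τ - dg D j) = τ ^ 2 := by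
  rw [TDvd_sum D (fun i => τ - i)]
  obtain ⟨k, rfl⟩ : ∃ k, D = τ + k := ⟨D - τ, by omega⟩
  exact TDvd_sub τ k

theorem dvd_det (D τ : ℕ) (hτ : τ ≤ D) (s v : ℤ) (r m : Fin (2 * D) → ℤ) (hr : ∀ k, r k ∣ v) :
    s ^ D ^ 2 * ∏ k, r k ^ τ ∣ v ^ τ ^ 2 * (mat D (fun k => s * r k) m).det := by
  rw [Matrix.det_apply, Finset.mul_sum]
  apply Finset.dvd_sum
  intro σ _
  rw [Units.smul_def, zsmul_eq_mul, ← mul_assoc, mul_comm (v ^ τ ^ 2), mul_assoc]
  apply Dvd.dvd.mul_left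
  have h1 : ∏ i : Fin (2 * D), (mat D (fun k => s * r k) m) (σ i) i =
      (∏ i : Fin (2 * D), (s * r (σ i)) ^ dg D i) *
        ∏ i : Fin (2 * D), (if (i : ℕ) ≤ D then 1 else m (σ i)) := by
    rw [← Finset.prod_mul_distrib]
    rfl
  rw [h1, ← mul_assoc]
  apply Dvd.dvd.mul_right
  have h2 : ∏ i : Fin (2 * D), (s * r (σ i)) ^ dg D i =
      s ^ D ^ 2 * ∏ i : Fin (2 * D), r (σ i) ^ dg D i := by
    simp_rw [mul_pow]
    rw [Finset.prod_mul_distrib, Finset.prod_pow_eq_pow_sum, sum_dg]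
  rw [h2, ← mul_assoc, mul_comm (v ^ τ ^ 2), mul_assoc]
  apply mul_dvd_mul_left
  rw [← sum_sub_dg D τ hτ, ← Finset.prod_pow_eq_pow_sum, ← Finset.prod_mul_distrib]
  rw [← Equiv.prod_comp σ (fun k => r k ^ τ)]
  apply Finset.prod_dvd_prod_of_dvd
  intro i _
  have h3 : τ ≤ (τ - dg D i) + dg D i := by omega
  calc r (σ i) ^ τ ∣ r (σ i) ^ ((τ - dg D i) + dg D i) := pow_dvd_pow _ h3
    _ = r (σ i) ^ (τ - dg D i) * r (σ i) ^ dg D i := pow_add _ _ _
    _ ∣ v ^ (τ - dg D i) * r (σ i) ^ dg D i := mul_dvd_mul_right (pow_dvd_pow_of_dvd (hr _) _) _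

end Pool.Agent.Lib.MP_6179b0_nt.T
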