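import Mathlib
import Pool.Agent.Lib.MP_6179b0_nt.T.TDefs
import Pool.Agent.Lib.MP_6179b0_nt.T.TDvd

/-!
# The combinatorial inequality for distinct exponents
-/

set_option autoImplicit false

namespace Pool.Agent.Lib.MP_6179b0_nt.T

open Finset

theorem TComb_nat (n : ℕ) : ∀ T : Finset ℕ, T.card = n → (n : ℝ) * (n - 1) / 2 ≤ ∑ x ∈ T, (x : ℝ) := by
  induction n with
  | zero =>
    intro T _
    have : 0 ≤ ∑ x ∈ T, (x : ℝ) := Finset.sum_nonneg fun x _ => Nat.cast_nonneg x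
    simpa using this
  | succ n ih =>
    intro T hT
    have hne : T.Nonempty := by
      rw [← Finset.card_pos]
      omega
    have hmax := T.max'_mem hne
    have h1 : T.card ≤ T.max' hne + 1 := by
      have : T ⊆ range (T.max' hne + 1) := by
        intro x hx
        rw [Finset.mem_range, Nat.lt_succ_iff]
        exact T.le_max' x hx
      have h2 := Finset.card_le_card this
      rwa [Finset.card_range] at h2
    have h3 : (n : ℝ) ≤ (T.max' hne : ℝ) := by exact_mod_cast (by omega : n ≤ T.max' hne)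
    have h4 := ih (T.erase (T.max' hne)) (by rw [Finset.card_erase_of_mem hmax]; omega)
    have h5 := Finset.add_sum_erase T (fun x => (x : ℝ)) hmax
    rw [← h5]
    push_cast
    linarith

theorem TComb_int {ι : Type} [DecidableEq ι] (J : Finset ι) (t : ι → ℤ) (ht : ∀ j ∈ J, 0 ≤ t j)
    (hinj : Set.InjOn t J) : (J.card : ℝ) * (J.card - 1) / 2 ≤ ∑ j ∈ J, (t j : ℝ) := by
  have hinj' : Set.InjOn (fun j => (t j).toNat) J := by
    intro i hi j hj hij
    apply hinj hi hj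
    have h1 := Int.toNat_of_nonneg (ht i hi)
    have h2 := Int.toNat_of_nonneg (ht j hj)
    have hij' : (t i).toNat = (t j).toNat := hij
    rw [← h1, ← h2, hij']
  have h1 := TComb_nat J.card (J.image fun j => (t j).toNat) (Finset.card_image_of_injOn hinj')
  rw [Finset.sum_image hinj'] at h1
  refine h1.trans (le_of_eq ?_)
  apply Finset.sum_congr rfl
  intro j hj
  have h2 := Int.toNat_of_nonneg (ht j hj)
  exact_mod_cast h2

theorem TComb_dg (D τ : ℕ) (hτ : τ ≤ D) : ∑ j : Fin (2 * D), (dg D j - (D - τ)) = τ ^ 2 := by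
  rw [TDvd_sum D (fun i => i - (D - τ))]
  obtain ⟨k, rfl⟩ : ∃ k, D = τ + k := ⟨D - τ, by omega⟩
  have h := TDvd_sub τ k
  rw [← Finset.sum_range_reflect, ← Finset.sum_range_reflect (fun i => τ - (i + 1))] at h
  rw [← h, add_comm]
  congr 1
  · apply Finset.sum_congr rfl
    intro i hi
    rw [Finset.mem_range] at hi
    omega
  · apply Finset.sum_congr rfl
    intro i hi
    rw [Finset.mem_range] at hi
    omega

theorem comb (D τ : ℕ) (hD : 1 ≤ D) (ν : ℝ) (h0 : 0 ≤ ν) (h1 : ν ≤ 1) (hτ : (τ : ℝ) ≤ ν * D)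
    (hτ' : ν * D < τ + 1) (s : Fin (2 * D) → ℤ) (hs : Function.Injective s) :
    ∑ j : Fin (2 * D), (ν * (s j : ℝ) - max ((s j : ℝ) - (dg D j : ℝ)) 0) ≤ (τ : ℝ) ^ 2 + 3 * D := by
  have hD' : (1 : ℝ) ≤ D := by exact_mod_cast hD
  have hτD : τ ≤ D := by
    have : (τ : ℝ) ≤ D := by nlinarith
    exact_mod_cast this
  obtain ⟨A, hA⟩ : ∃ A : ℤ, A = (D : ℤ) - τ := ⟨_, rfl⟩
  have hAR : (A : ℝ) = (D : ℝ) - τ := by rw [hA]; push_cast; ring
  have hpt : ∀ j : Fin (2 * D), ν * (s j : ℝ) - max ((s j : ℝ) - (dg D j : ℝ)) 0 ≤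
      ((dg D j - (D - τ) : ℕ) : ℝ) + (ν * (s j : ℝ) - max ((s j : ℝ) - A) 0) := by
    intro j
    have h2 : (dg D j : ℝ) - A ≤ ((dg D j - (D - τ) : ℕ) : ℝ) := by
      rw [hAR]
      have h3 : dg D j ≤ (dg D j - (D - τ)) + (D - τ) := by omega
      have h4 : (dg D j : ℝ) ≤ (((dg D j - (D - τ)) + (D - τ) : ℕ) : ℝ) := by exact_mod_cast h3
      rw [Nat.cast_add, Nat.cast_sub hτD] at h4
      linarith
    have h5 : (0 : ℝ) ≤ ((dg D j - (D - τ) : ℕ) : ℝ) := Nat.cast_nonneg _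
    have h6 : max ((s j : ℝ) - A) 0 ≤ ((dg D j - (D - τ) : ℕ) : ℝ) +
        max ((s j : ℝ) - (dg D j : ℝ)) 0 := by
      have h7 := le_max_left ((s j : ℝ) - (dg D j : ℝ)) 0
      have h8 := le_max_right ((s j : ℝ) - (dg D j : ℝ)) 0
      apply max_le <;> linarith
    linarith
  refine (Finset.sum_le_sum fun j _ => hpt j).trans ?_
  rw [Finset.sum_add_distrib]
  have hsum1 : ∑ j : Fin (2 * D), ((dg D j - (D - τ) : ℕ) : ℝ) = (τ : ℝ) ^ 2 := by
    exact_mod_cast TComb_dg D τ hτD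
  rw [hsum1]
  obtain ⟨L, hL⟩ : ∃ L : Finset (Fin (2 * D)), L = univ.filter (fun j => s j ≤ A) := ⟨_, rfl⟩
  obtain ⟨R, hR⟩ : ∃ R : Finset (Fin (2 * D)), R = univ.filter (fun j => ¬ s j ≤ A) := ⟨_, rfl⟩
  have hsplit : ∑ j : Fin (2 * D), (ν * (s j : ℝ) - max ((s j : ℝ) - A) 0) =
      ∑ j ∈ L, (ν * (s j : ℝ) - max ((s j : ℝ) - A) 0) +
        ∑ j ∈ R, (ν * (s j : ℝ) - max ((s j : ℝ) - A) 0) := by
    rw [hL, hR, Finset.sum_filter_add_sum_filter_not]
  have hcard : (L.card : ℝ) + R.card = 2 * D := by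
    have h2 := Finset.card_filter_add_card_filter_not (s := (univ : Finset (Fin (2 * D))))
      (fun j => s j ≤ A)
    rw [← hL, ← hR, Finset.card_univ, Fintype.card_fin] at h2
    exact_mod_cast h2
  have hLs : ∑ j ∈ L, (ν * (s j : ℝ) - max ((s j : ℝ) - A) 0) ≤
      ν * A * L.card - ν * (L.card * (L.card - 1) / 2) := by
    have h2 := TComb_int L (fun j => A - s j)
      (by intro j hj; rw [hL, Finset.mem_filter] at hj; linarith [hj.2])
      (by intro i _ j _ hij; exact hs (by simpa using hij))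
    have h3 : ∑ j ∈ L, (ν * (s j : ℝ) - max ((s j : ℝ) - A) 0) =
        ν * A * L.card - ν * ∑ j ∈ L, ((A - s j : ℤ) : ℝ) := by
      have h4 : ∀ j ∈ L, ν * (s j : ℝ) - max ((s j : ℝ) - A) 0 = ν * A - ν * ((A - s j : ℤ) : ℝ) := by
        intro j hj
        rw [hL, Finset.mem_filter] at hj
        have h5 : (s j : ℝ) ≤ A := by exact_mod_cast hj.2
        rw [max_eq_right (by linarith)]
        push_cast
        ring
      rw [Finset.sum_congr rfl h4, Finset.sum_sub_distrib, Finset.sum_const, nsmul_eq_mul,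
        ← Finset.mul_sum]
      ring
    rw [h3]
    have := mul_le_mul_of_nonneg_left h2 h0
    linarith
  have hRs : ∑ j ∈ R, (ν * (s j : ℝ) - max ((s j : ℝ) - A) 0) ≤
      ν * A * R.card - (1 - ν) * (R.card + R.card * (R.card - 1) / 2) := by
    have h2 := TComb_int R (fun j => s j - A - 1)
      (by intro j hj; rw [hR, Finset.mem_filter, not_le] at hj; linarith [hj.2])
      (by intro i _ j _ hij; exact hs (by simpa using hij))
    have h3 : ∑ j ∈ R, (ν * (s j : ℝ) - max ((s j : ℝ) - A) 0) =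
        ν * A * R.card - (1 - ν) * (R.card + ∑ j ∈ R, ((s j - A - 1 : ℤ) : ℝ)) := by
      have h4 : ∀ j ∈ R, ν * (s j : ℝ) - max ((s j : ℝ) - A) 0 =
          ν * A - (1 - ν) * (1 + ((s j - A - 1 : ℤ) : ℝ)) := by
        intro j hj
        rw [hR, Finset.mem_filter, not_le] at hj
        have h5 : (A : ℝ) < s j := by exact_mod_cast hj.2
        rw [max_eq_left (by linarith)]
        push_cast
        ring
      rw [Finset.sum_congr rfl h4, Finset.sum_sub_distrib, Finset.sum_const, nsmul_eq_mul,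
        ← Finset.mul_sum, Finset.sum_add_distrib, Finset.sum_const, nsmul_eq_mul]
      ring
    rw [h3]
    have := mul_le_mul_of_nonneg_left h2 (by linarith : 0 ≤ 1 - ν)
    linarith
  rw [hsplit]
  have hid : ν * (L.card : ℝ) ^ 2 + (1 - ν) * (R.card : ℝ) ^ 2 =
      ν * (1 - ν) * ((L.card : ℝ) + R.card) ^ 2 + (ν * L.card - (1 - ν) * R.card) ^ 2 := by ring
  have hsq : 0 ≤ (ν * (L.card : ℝ) - (1 - ν) * R.card) ^ 2 := sq_nonneg _
  have hRc : (0 : ℝ) ≤ R.card := Nat.cast_nonneg _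
  have hLc : (L.card : ℝ) ≤ 2 * D := by linarith
  have hLc0 : (0 : ℝ) ≤ L.card := Nat.cast_nonneg _
  rw [hcard] at hid
  have hA2 : (A : ℝ) ≤ D - ν * D + 1 := by rw [hAR]; linarith
  have hνA : ν * A * (2 * D) ≤ ν * (D - ν * D + 1) * (2 * D) := by
    apply mul_le_mul_of_nonneg_right _ (by linarith)
    exact mul_le_mul_of_nonneg_left hA2 h0
  have h7 : ν * A * L.card + ν * A * R.card = ν * A * (2 * D) := by rw [← hcard]; ring
  have h8 : ν * (L.card : ℝ) ≤ 2 * D := by nlinarith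
  have h9 : 0 ≤ (1 - ν) * (R.card : ℝ) := mul_nonneg (by linarith) hRc
  have h10 : ν * (2 * (D : ℝ)) ≤ 2 * D := by nlinarith
  nlinarith

end Pool.Agent.Lib.MP_6179b0_nt.T
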