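import Mathlib

/-!
# Multilinear expansion and size of determinants
-/

set_option autoImplicit false

namespace Pool.Agent.Lib.MP_6179b0_nt.T

open Finset

theorem det_expand {ι : Type} [DecidableEq ι] (N : ℕ) (S : Finset ι) (G : Fin N → ι → Fin N → ℝ) :
    |(Matrix.of fun k j : Fin N => ∑ o ∈ S, G j o k).det| ≤
      ∑ f ∈ Fintype.piFinset (fun _ : Fin N => S), |(Matrix.of fun k j : Fin N => G j (f j) k).det| := by
  have h1 : (Matrix.of fun k j : Fin N => ∑ o ∈ S, G j o k).det =
      ∑ f ∈ Fintype.piFinset (fun _ : Fin N => S), (Matrix.of fun k j : Fin N => G j (f j) k).det := by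
    have h2 : ∀ M : Matrix (Fin N) (Fin N) ℝ, M.det =
        (Matrix.detRowAlternating (n := Fin N) (R := ℝ)).toMultilinearMap (fun j => fun k => M k j) := by
      intro M
      rw [← Matrix.det_transpose]
      rfl
    rw [h2]
    have h3 : (fun j => fun k => (Matrix.of fun k j : Fin N => ∑ o ∈ S, G j o k) k j) =
        fun j => ∑ o ∈ S, (fun k => G j o k : Fin N → ℝ) := by
      funext j k
      simp
    rw [h3, MultilinearMap.map_sum_finset]
    apply Finset.sum_congr rfl
    intro f _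
    rw [h2]
    rfl
  rw [h1]
  exact Finset.abs_sum_le_sum_abs _ _

theorem det_col_le (N : ℕ) (M : Matrix (Fin N) (Fin N) ℝ) (u : Fin N → ℝ) (hu : ∀ k j, |M k j| ≤ u j) :
    |M.det| ≤ (N.factorial : ℝ) * ∏ j, u j := by
  rw [Matrix.det_apply]
  refine le_trans (Finset.abs_sum_le_sum_abs _ _) ?_
  have h1 : ∀ σ ∈ (Finset.univ : Finset (Equiv.Perm (Fin N))),
      |Equiv.Perm.sign σ • ∏ i, M (σ i) i| ≤ ∏ j, u j := by
    intro σ _
    rw [Units.smul_def, zsmul_eq_mul, abs_mul]
    have h2 : |(((Equiv.Perm.sign σ : ℤˣ) : ℤ) : ℝ)| = 1 := by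
      rw [← Int.cast_abs]
      rcases Int.units_eq_one_or (Equiv.Perm.sign σ) with h | h <;> simp [h]
    rw [h2, one_mul, Finset.abs_prod]
    exact Finset.prod_le_prod (fun i _ => abs_nonneg _) (fun i _ => hu _ _)
  refine le_trans (Finset.sum_le_sum h1) ?_
  rw [Finset.sum_const, nsmul_eq_mul, Finset.card_univ, Fintype.card_perm, Fintype.card_fin]

theorem det_zero_of_exp (N : ℕ) (c : Fin N → ℝ) (s : Fin N → ℤ) (n : Fin N → ℝ)
    (hs : ¬ Function.Injective s) : (Matrix.of fun k j : Fin N => c j * n k ^ s j).det = 0 := by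
  have h1 : (Matrix.of fun k j : Fin N => c j * n k ^ s j).det =
      (∏ j, c j) * (Matrix.of fun k j : Fin N => n k ^ s j).det := by
    rw [← Matrix.det_mul_row]
    rfl
  rw [h1]
  rw [Function.Injective] at hs
  push Not at hs
  obtain ⟨i, j, hij, hne⟩ := hs
  rw [Matrix.det_zero_of_column_eq hne, mul_zero]
  intro k
  simp only [Matrix.of_apply, hij]

end Pool.Agent.Lib.MP_6179b0_nt.T
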