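import Mathlib
import Pool.Agent.Lib.MP_6179b0_nt.T.TDefs

/-!
# Expansion of `n ^ d * √(a + n + b / n)` in powers of `n`
-/

set_option autoImplicit false

namespace Pool.Agent.Lib.MP_6179b0_nt.T

open Finset

theorem TSplit_prs (K : ℕ) (f : ℕ → ℕ → ℝ) :
    ∑ q ∈ prs K, f q.1 q.2 = ∑ k ∈ range K, ∑ q ∈ antidiagonal k, f q.1 q.2 := by
  rw [Finset.sum_sigma']
  symm
  apply Finset.sum_bij' (fun (x : (_ : ℕ) × ℕ × ℕ) _ => x.2) (fun q _ => ⟨q.1 + q.2, q⟩)
  · rintro ⟨k, q⟩ h
    simp only [Finset.mem_sigma, Finset.mem_range, Finset.HasAntidiagonal.mem_antidiagonal] at h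
    simp only [prs, Finset.mem_filter, Finset.mem_product, Finset.mem_range]
    omega
  · intro q h
    simp only [prs, Finset.mem_filter, Finset.mem_product, Finset.mem_range] at h
    simp only [Finset.mem_sigma, Finset.mem_range, Finset.HasAntidiagonal.mem_antidiagonal, and_true]
    exact h.2
  · rintro ⟨k, q⟩ h
    simp only [Finset.mem_sigma, Finset.mem_range, Finset.HasAntidiagonal.mem_antidiagonal] at h
    simp only [h.2]
  · intro q _
    rfl
  · intro x _
    rfl

theorem split_term (c : ℕ → ℝ) (K d : ℕ) (a b n : ℝ) (ha : 0 < a) (hn : n ≠ 0) :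
    n ^ d * √(a + n + b / n) =
      ∑ q ∈ prs K, tc c a b q.1 q.2 * n ^ ((d : ℤ) + q.1 - q.2) + n ^ d * rm c K a b n := by
  have h1 : √(a + n + b / n) = √a * √(1 + (n + b / n) / a) := by
    rw [← Real.sqrt_mul ha.le]
    congr 1
    field_simp
    ring
  have h2 : ∑ q ∈ prs K, tc c a b q.1 q.2 * n ^ ((d : ℤ) + q.1 - q.2) =
      n ^ d * (√a * ∑ k ∈ range K, c k * ((n + b / n) / a) ^ k) := by
    rw [TSplit_prs K (fun i l => tc c a b i l * n ^ ((d : ℤ) + i - l)), Finset.mul_sum, Finset.mul_sum]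
    apply Finset.sum_congr rfl
    intro k _
    rw [div_pow, Commute.add_pow' (Commute.all _ _)]
    rw [Finset.sum_div, Finset.mul_sum, Finset.mul_sum, Finset.mul_sum]
    apply Finset.sum_congr rfl
    intro q hq
    rw [Finset.HasAntidiagonal.mem_antidiagonal] at hq
    subst hq
    unfold tc
    rw [zpow_sub₀ hn, zpow_add₀ hn, zpow_natCast, zpow_natCast, zpow_natCast, nsmul_eq_mul, div_pow]
    field_simp
  rw [h1, h2]
  unfold rm
  ring

end Pool.Agent.Lib.MP_6179b0_nt.T
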