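import Mathlib

/-!
# Expansion of the square root
-/

set_option autoImplicit false

namespace Pool.Agent.Lib.MP_6179b0_nt.T

open Finset

theorem sqrt_expansion (K : ℕ) : ∃ (c : ℕ → ℝ) (C x₀ : ℝ), 0 < C ∧ 0 < x₀ ∧ x₀ ≤ 1 / 2 ∧
    ∀ x : ℝ, |x| ≤ x₀ → |√(1 + x) - ∑ k ∈ range K, c k * x ^ k| ≤ C * |x| ^ K := by
  have h1 : AnalyticAt ℝ (fun x : ℝ => √(1 + x)) 0 := by
    have h2 : AnalyticAt ℝ (fun x : ℝ => Real.exp (1 / 2 * Real.log (1 + x))) 0 := by
      have h3 : AnalyticAt ℝ (fun x : ℝ => 1 + x) 0 := analyticAt_const.add analyticAt_id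
      have h4 : AnalyticAt ℝ (fun x : ℝ => Real.log (1 + x)) 0 := h3.log (by norm_num)
      exact (analyticAt_const.mul h4).rexp'
    apply h2.congr
    have h5 : ∀ᶠ x : ℝ in nhds 0, -1 < x := eventually_gt_nhds (by norm_num)
    filter_upwards [h5] with x hx
    have hx1 : 0 < 1 + x := by linarith
    rw [Real.sqrt_eq_rpow, Real.rpow_def_of_pos hx1, mul_comm]
  obtain ⟨p, hp⟩ := h1
  have h4 := hp.isBigO_sub_partialSum_pow K
  obtain ⟨C, hC, h5⟩ := h4.exists_pos
  rw [Asymptotics.isBigOWith_iff, Metric.eventually_nhds_iff] at h5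
  obtain ⟨r, hr, h6⟩ := h5
  refine ⟨fun k => p.coeff k, C, min (r / 2) (1 / 2), hC, by positivity, min_le_right _ _, ?_⟩
  intro x hx
  have h7 : dist x 0 < r := by
    rw [dist_zero_right, Real.norm_eq_abs]
    have := min_le_left (r / 2) (1 / 2)
    linarith
  have h8 := h6 h7
  rw [zero_add, Real.norm_eq_abs, Real.norm_eq_abs, abs_pow, abs_norm, Real.norm_eq_abs] at h8
  have h9 : p.partialSum K x = ∑ k ∈ range K, p.coeff k * x ^ k := by
    unfold FormalMultilinearSeries.partialSum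
    apply Finset.sum_congr rfl
    intro k _
    rw [FormalMultilinearSeries.apply_eq_pow_smul_coeff, smul_eq_mul, mul_comm]
  rw [h9] at h8
  exact h8

end Pool.Agent.Lib.MP_6179b0_nt.T
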