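import Mathlib
import Pool.Agent.Lib.MP_6179b0_nt.T.TDefs

/-!
# Size of the terms
-/

set_option autoImplicit false

namespace Pool.Agent.Lib.MP_6179b0_nt.T

open Finset

theorem TTerm_zpow (s : ℤ) (M B n ν η : ℝ) (hB : 1 ≤ B) (hη : 0 ≤ η) (hs : (s : ℝ) ≤ M) (hM : 0 ≤ M)
    (hn : B ^ ν ≤ |n|) (hn' : |n| ≤ B ^ (ν + η)) : |n ^ s| ≤ B ^ (ν * s + η * M) := by
  have hB0 : 0 < B := by linarith
  have hp : 0 < B ^ ν := by positivity
  have hnpos : 0 < |n| := lt_of_lt_of_le hp hn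
  rw [abs_zpow, ← Real.rpow_intCast]
  rcases le_total 0 (s : ℝ) with h | h
  · calc |n| ^ (s : ℝ) ≤ (B ^ (ν + η)) ^ (s : ℝ) := Real.rpow_le_rpow hnpos.le hn' h
      _ = B ^ ((ν + η) * s) := by rw [← Real.rpow_mul hB0.le]
      _ ≤ B ^ (ν * s + η * M) := by
          apply Real.rpow_le_rpow_of_exponent_le hB
          have := mul_le_mul_of_nonneg_left hs hη
          linarith
  · calc |n| ^ (s : ℝ) ≤ (B ^ ν) ^ (s : ℝ) := Real.rpow_le_rpow_of_nonpos hp hn h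
      _ = B ^ (ν * s) := by rw [← Real.rpow_mul hB0.le]
      _ ≤ B ^ (ν * s + η * M) := by
          apply Real.rpow_le_rpow_of_exponent_le hB
          have : 0 ≤ η * M := mul_nonneg hη hM
          linarith

theorem TTerm_coef (C₁ : ℝ) (K i l : ℕ) (c : ℕ → ℝ) (hC₁ : ∀ k < K, |c k| * 2 ^ k ≤ C₁) (hil : i + l < K) :
    |c (i + l)| * ((i + l).choose i : ℝ) ≤ C₁ := by
  refine le_trans ?_ (hC₁ (i + l) hil)
  apply mul_le_mul_of_nonneg_left _ (abs_nonneg _)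
  exact_mod_cast Nat.choose_le_two_pow (i + l) i

/-- a term which is not the first one -/
theorem term_le (C₁ : ℝ) (D K d i l : ℕ) (c : ℕ → ℝ) (hC₁ : ∀ k < K, |c k| * 2 ^ k ≤ C₁) (hil : i + l < K)
    (h1 : 1 ≤ i + l) (hd : d ≤ D) (B a b n ν η δ : ℝ) (hB : 1 ≤ B) (hb : |b| = B) (hδ : 0 ≤ δ) (hη : 0 ≤ η)
    (hδK : δ * K ≤ 1 / 4) (hηK : η * (D + K) ≤ 1 / 4) (hδ1 : δ ≤ 1) (ha : B ^ (1 - δ) ≤ a)
    (hn : B ^ ν ≤ |n|) (hn' : |n| ≤ B ^ (ν + η)) :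
    |tc c a b i l * n ^ ((d : ℤ) + i - l)| ≤
      C₁ * B ^ (1 + ν * (((d : ℤ) + i - l : ℤ) : ℝ) - max ((((d : ℤ) + i - l : ℤ) : ℝ) - d) 0) := by
  have hB0 : 0 < B := by linarith
  have ha0 : 0 < a := lt_of_lt_of_le (by positivity) ha
  have hC₁' := TTerm_coef C₁ K i l c hC₁ hil
  have hC₁0 : 0 ≤ C₁ := le_trans (by positivity) hC₁'
  obtain ⟨s, hs⟩ : ∃ s : ℤ, s = (d : ℤ) + i - l := ⟨_, rfl⟩
  rw [← hs]
  have hsR : (s : ℝ) = (d : ℝ) + i - l := by rw [hs]; push_cast; ring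
  have hdD : (d : ℝ) ≤ D := by exact_mod_cast hd
  have hilK : (i : ℝ) + l ≤ K := by
    have : ((i + l : ℕ) : ℝ) ≤ K := by exact_mod_cast hil.le
    push_cast at this
    exact this
  have hl0 : (0 : ℝ) ≤ l := Nat.cast_nonneg l
  have hi0 : (0 : ℝ) ≤ i := Nat.cast_nonneg i
  have h1R : (1 : ℝ) ≤ (i : ℝ) + l := by exact_mod_cast h1
  have hz := TTerm_zpow s ((D : ℝ) + K) B n ν η hB hη (by rw [hsR]; linarith) (by positivity) hn hn'
  have hsq : √a / a ^ (i + l) ≤ B ^ ((1 - δ) * (1 / 2 - ((i : ℝ) + l))) := by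
    have e1 : √a / a ^ (i + l) = a ^ (1 / 2 - ((i : ℝ) + l)) := by
      rw [Real.rpow_sub ha0, ← Real.sqrt_eq_rpow]
      congr 1
      rw [← Real.rpow_natCast]
      push_cast
      rfl
    rw [e1, Real.rpow_mul hB0.le]
    exact Real.rpow_le_rpow_of_nonpos (by positivity) ha (by linarith)
  have hbl : |b ^ l| = B ^ (l : ℝ) := by rw [abs_pow, hb, Real.rpow_natCast]
  have habs : |tc c a b i l * n ^ s| =
      (|c (i + l)| * ((i + l).choose i : ℝ)) * (√a / a ^ (i + l)) * |b ^ l| * |n ^ s| := by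
    unfold tc
    rw [abs_mul, abs_mul, abs_div, abs_mul, abs_mul, abs_of_nonneg (Real.sqrt_nonneg a),
      abs_of_nonneg (by positivity : (0 : ℝ) ≤ a ^ (i + l)), Nat.abs_cast]
    ring
  rw [habs, hbl]
  calc (|c (i + l)| * ((i + l).choose i : ℝ)) * (√a / a ^ (i + l)) * B ^ (l : ℝ) * |n ^ s|
      ≤ C₁ * B ^ ((1 - δ) * (1 / 2 - ((i : ℝ) + l))) * B ^ (l : ℝ) *
          B ^ (ν * s + η * ((D : ℝ) + K)) := by
        apply mul_le_mul _ hz (abs_nonneg _) (by positivity)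
        apply mul_le_mul_of_nonneg_right _ (by positivity)
        exact mul_le_mul hC₁' hsq (by positivity) hC₁0
    _ = C₁ * B ^ ((1 - δ) * (1 / 2 - ((i : ℝ) + l)) + l + (ν * s + η * ((D : ℝ) + K))) := by
        rw [Real.rpow_add hB0 _ (ν * (s : ℝ) + η * ((D : ℝ) + K)), Real.rpow_add hB0 _ (l : ℝ)]
        simp only [mul_assoc]
    _ ≤ C₁ * B ^ (1 + ν * (s : ℝ) - max ((s : ℝ) - d) 0) := by
        apply mul_le_mul_of_nonneg_left _ hC₁0
        apply Real.rpow_le_rpow_of_exponent_le hB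
        have h2 : max ((s : ℝ) - d) 0 ≤ i := by
          apply max_le _ hi0
          rw [hsR]
          linarith
        have h3 : δ * ((i : ℝ) + l) ≤ 1 / 4 := (mul_le_mul_of_nonneg_left hilK hδ).trans hδK
        nlinarith

/-- a power of `n` -/
theorem pow_le (D K d : ℕ) (hd : d ≤ D) (B n ν η : ℝ) (hB : 1 ≤ B) (hη : 0 ≤ η)
    (hηK : η * (D + K) ≤ 1 / 4) (hn : B ^ ν ≤ |n|) (hn' : |n| ≤ B ^ (ν + η)) :
    |n ^ (d : ℤ)| ≤ B ^ (1 + ν * (d : ℝ)) := by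
  have hdD : (d : ℝ) ≤ D := by exact_mod_cast hd
  have hK : (0 : ℝ) ≤ K := Nat.cast_nonneg K
  have hz := TTerm_zpow (d : ℤ) ((D : ℝ) + K) B n ν η hB hη (by push_cast; linarith) (by positivity) hn hn'
  refine hz.trans (Real.rpow_le_rpow_of_exponent_le hB ?_)
  push_cast
  linarith

/-- a trivial bound for all terms; here `|n|` and `|b / n|` are at most `X ≤ a` -/
theorem term_triv (C₁ : ℝ) (D K d i l : ℕ) (c : ℕ → ℝ) (hC₁ : ∀ k < K, |c k| * 2 ^ k ≤ C₁) (hil : i + l < K)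
    (hd : d ≤ D) (B a b n X : ℝ) (hB : 1 ≤ B) (hn0 : n ≠ 0) (hnB : |n| ≤ B) (hX : 0 < X) (hXa : X ≤ a)
    (hn : |n| ≤ X) (hbn : |b / n| ≤ X) :
    |tc c a b i l * n ^ ((d : ℤ) + i - l)| ≤ C₁ * (B ^ D * √a) := by
  have hC₁' := TTerm_coef C₁ K i l c hC₁ hil
  have hC₁0 : 0 ≤ C₁ := le_trans (by positivity) hC₁'
  have ha0 : 0 < a := hX.trans_le hXa
  have e1 : tc c a b i l * n ^ ((d : ℤ) + i - l) =
      (c (i + l) * ((i + l).choose i : ℝ)) * (n ^ d * √a) * ((n / a) ^ i * ((b / n) / a) ^ l) := by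
    unfold tc
    rw [zpow_sub₀ hn0, zpow_add₀ hn0, zpow_natCast, zpow_natCast, zpow_natCast, pow_add, div_pow, div_pow,
      div_pow]
    field_simp
  rw [e1, abs_mul, abs_mul, abs_mul, abs_mul, abs_mul, abs_pow, abs_pow, abs_pow, Nat.abs_cast,
    abs_div, abs_div (b / n), abs_of_pos ha0, abs_of_nonneg (Real.sqrt_nonneg a)]
  have h2 : (|n| / a) ^ i ≤ 1 := by
    apply pow_le_one₀ (by positivity)
    rw [div_le_one ha0]
    linarith
  have h3 : (|b / n| / a) ^ l ≤ 1 := by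
    apply pow_le_one₀ (by positivity)
    rw [div_le_one ha0]
    linarith
  have h4 : |n| ^ d ≤ B ^ D :=
    (pow_le_pow_left₀ (abs_nonneg _) hnB d).trans (pow_le_pow_right₀ hB hd)
  calc |c (i + l)| * ((i + l).choose i : ℝ) * (|n| ^ d * √a) * ((|n| / a) ^ i * (|b / n| / a) ^ l)
      ≤ |c (i + l)| * ((i + l).choose i : ℝ) * (|n| ^ d * √a) * 1 := by
        apply mul_le_mul_of_nonneg_left _ (by positivity)
        exact mul_le_one₀ h2 (by positivity) h3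
    _ = |c (i + l)| * ((i + l).choose i : ℝ) * (|n| ^ d * √a) := mul_one _
    _ ≤ C₁ * (B ^ D * √a) := by
        apply mul_le_mul hC₁' _ (by positivity) hC₁0
        exact mul_le_mul_of_nonneg_right h4 (Real.sqrt_nonneg _)

/-- the error term -/
theorem rem_le (C x₀ : ℝ) (D K d : ℕ) (c : ℕ → ℝ)
    (hc : ∀ x : ℝ, |x| ≤ x₀ → |√(1 + x) - ∑ k ∈ range K, c k * x ^ k| ≤ C * |x| ^ K) (hC : 0 ≤ C)
    (hd : d ≤ D) (B a b n X : ℝ) (hB : 1 ≤ B) (hnB : |n| ≤ B) (hX : 0 < X) (hXa : 2 * X ≤ x₀ * a)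
    (ha : 0 < a) (hn : |n| ≤ X) (hbn : |b / n| ≤ X) :
    |n ^ d * rm c K a b n| ≤ C * (B ^ D * √a * (2 * X / a) ^ K) := by
  have h1 : |(n + b / n) / a| ≤ 2 * X / a := by
    rw [abs_div, abs_of_pos ha]
    apply div_le_div_of_nonneg_right _ ha.le
    exact (abs_add_le _ _).trans (by linarith)
  have h2 : 2 * X / a ≤ x₀ := by rwa [div_le_iff₀ ha]
  have h3 := hc ((n + b / n) / a) (h1.trans h2)
  have h4 : |n| ^ d ≤ B ^ D :=
    (pow_le_pow_left₀ (abs_nonneg _) hnB d).trans (pow_le_pow_right₀ hB hd)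
  have h5 : |(n + b / n) / a| ^ K ≤ (2 * X / a) ^ K := pow_le_pow_left₀ (abs_nonneg _) h1 K
  unfold rm
  rw [abs_mul, abs_mul, abs_pow, abs_of_nonneg (Real.sqrt_nonneg a)]
  calc |n| ^ d * (√a * |√(1 + (n + b / n) / a) - ∑ k ∈ range K, c k * ((n + b / n) / a) ^ k|)
      ≤ B ^ D * (√a * (C * (2 * X / a) ^ K)) := by
        apply mul_le_mul h4 _ (by positivity) (by positivity)
        apply mul_le_mul_of_nonneg_left _ (Real.sqrt_nonneg _)
        exact h3.trans (mul_le_mul_of_nonneg_left h5 hC)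
    _ = C * (B ^ D * √a * (2 * X / a) ^ K) := by ring

end Pool.Agent.Lib.MP_6179b0_nt.T
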