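import Mathlib
import Pool.Agent.Lib.MP_6179b0_nt.T.TDefs
import Pool.Agent.Lib.MP_6179b0_nt.T.TSqrt
import Pool.Agent.Lib.MP_6179b0_nt.T.TExpand
import Pool.Agent.Lib.MP_6179b0_nt.T.TComb
import Pool.Agent.Lib.MP_6179b0_nt.T.TSplit
import Pool.Agent.Lib.MP_6179b0_nt.T.TTerm

/-!
# Archimedean upper bound for the determinant
-/

set_option autoImplicit false

namespace Pool.Agent.Lib.MP_6179b0_nt.T

open Finset

/-- the terms of the expansion of the entries -/
noncomputable def arch_G (D K : ℕ) (c : ℕ → ℝ) (a b : ℝ) (n : Fin (2 * D) → ℝ) (j : Fin (2 * D))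
    (o : Option (ℕ × ℕ)) (k : Fin (2 * D)) : ℝ :=
  if (j : ℕ) ≤ D then (if o = some (0, 0) then n k ^ (dg D j) else 0)
  else match o with
    | none => n k ^ (dg D j) * rm c K a b (n k)
    | some q => tc c a b q.1 q.2 * n k ^ ((dg D j : ℤ) + q.1 - q.2)

theorem arch_entry (D K : ℕ) (hK : 1 ≤ K) (c : ℕ → ℝ) (a b : ℝ) (ha : 0 < a) (n : Fin (2 * D) → ℝ)
    (hn : ∀ k, n k ≠ 0) :
    mat D n (fun k => √(a + n k + b / n k)) =
      Matrix.of fun k j => ∑ o ∈ insertNone (prs K), arch_G D K c a b n j o k := by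
  ext k j
  simp only [mat, Matrix.of_apply, fn]
  by_cases hj : (j : ℕ) ≤ D
  · simp only [arch_G, hj, if_true, mul_one]
    rw [Finset.sum_ite_eq']
    have : (some (0, 0) : Option (ℕ × ℕ)) ∈ insertNone (prs K) := by
      rw [some_mem_insertNone]
      simp only [prs, mem_filter, mem_product, mem_range]
      omega
    rw [if_pos this]
  · simp only [arch_G, hj, if_false]
    rw [sum_insertNone, split_term c K (dg D j) a b (n k) ha (hn k)]
    ring

theorem arch_bound (D : ℕ) (hD : 1 ≤ D) (δ' : ℝ) (hδ' : 0 < δ') (hδ1 : δ' < 1 / 2) :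
    ∃ η δ C B₀ : ℝ, 0 < η ∧ 0 < δ ∧ 0 < C ∧ 1 ≤ B₀ ∧
      ∀ (B a b ν : ℝ) (n : Fin (2 * D) → ℝ) (τ : ℕ), B₀ ≤ B → |b| = B → B ^ (1 - δ) ≤ a →
        δ' ≤ ν → ν ≤ 1 - δ' → (∀ k, B ^ ν ≤ |n k|) → (∀ k, |n k| ≤ B ^ (ν + η)) →
        (τ : ℝ) ≤ ν * D → ν * D < τ + 1 →
        |(mat D n (fun k => √(a + n k + b / n k))).det| ≤ C * B ^ ((τ : ℝ) ^ 2 + 5 * D) := by
  obtain ⟨K, hK1, hK2⟩ : ∃ K : ℕ, D + 1 ≤ K ∧ (4 * (D : ℝ) ^ 2 + 2 * D) / δ' ≤ K := by
    refine ⟨⌈(4 * (D : ℝ) ^ 2 + 2 * D) / δ'⌉₊ + D + 1, by omega, ?_⟩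
    push_cast
    have := Nat.le_ceil ((4 * (D : ℝ) ^ 2 + 2 * D) / δ')
    have h2 : (0 : ℝ) ≤ D := Nat.cast_nonneg D
    linarith
  obtain ⟨c, C₀, x₀, hC₀, hx₀, hx₁, hc⟩ := sqrt_expansion K
  obtain ⟨C₁, hC₁, hC₁'⟩ : ∃ C₁ : ℝ, 1 ≤ C₁ ∧ ∀ k < K, |c k| * 2 ^ k ≤ C₁ := by
    refine ⟨1 + ∑ k ∈ range K, |c k| * 2 ^ k, ?_, ?_⟩
    · have : 0 ≤ ∑ k ∈ range K, |c k| * 2 ^ k := Finset.sum_nonneg fun k _ => by positivity
      linarith
    · intro k hk
      have := Finset.single_le_sum (f := fun k => |c k| * 2 ^ k) (fun k _ => by positivity)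
        (Finset.mem_range.2 hk)
      linarith
  have hD' : (1 : ℝ) ≤ D := by exact_mod_cast hD
  have hKR : (D : ℝ) + 1 ≤ K := by exact_mod_cast hK1
  have hKpos : (0 : ℝ) < K := by linarith
  obtain ⟨δ, hδ⟩ : ∃ δ : ℝ, δ = min (δ' / 4) (1 / (4 * K)) := ⟨_, rfl⟩
  obtain ⟨η, hη⟩ : ∃ η : ℝ, η = min (δ' / 4) (1 / (4 * (D + K))) := ⟨_, rfl⟩
  have hδ0 : 0 < δ := by rw [hδ]; positivity
  have hη0 : 0 < η := by rw [hη]; positivity
  have hδ2 : δ ≤ δ' / 4 := by rw [hδ]; exact min_le_left _ _
  have hη2 : η ≤ δ' / 4 := by rw [hη]; exact min_le_left _ _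
  have hδK : δ * K ≤ 1 / 4 := by
    have : δ ≤ 1 / (4 * K) := by rw [hδ]; exact min_le_right _ _
    calc δ * K ≤ 1 / (4 * K) * K := mul_le_mul_of_nonneg_right this hKpos.le
      _ = 1 / 4 := by field_simp
  have hηK : η * (D + K) ≤ 1 / 4 := by
    have : η ≤ 1 / (4 * (D + K)) := by rw [hη]; exact min_le_right _ _
    calc η * (D + K) ≤ 1 / (4 * (D + K)) * (D + K) := mul_le_mul_of_nonneg_right this (by positivity)
      _ = 1 / 4 := by field_simp
  obtain ⟨C₂, hC₂⟩ : ∃ C₂ : ℝ, C₂ = C₁ + C₀ := ⟨_, rfl⟩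
  have hC₂1 : 1 ≤ C₂ := by rw [hC₂]; linarith
  obtain ⟨S, hS⟩ : ∃ S : Finset (Option (ℕ × ℕ)), S = insertNone (prs K) := ⟨_, rfl⟩
  obtain ⟨C₃, hC₃⟩ : ∃ C₃ : ℝ, C₃ = ((2 * D).factorial : ℝ) * C₂ ^ (2 * D) * 2 ^ K := ⟨_, rfl⟩
  have hC₃0 : 0 < C₃ := by rw [hC₃]; positivity
  refine ⟨η, δ, (S.card : ℝ) ^ (2 * D) * C₃, max 1 ((2 / x₀) ^ (2 / δ')), hη0, hδ0, ?_,
    le_max_left _ _, ?_⟩
  · have : 0 < S.card := by
      rw [hS, Finset.card_pos]
      exact ⟨none, none_mem_insertNone⟩
    positivity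
  intro B a b ν n τ hB hb ha hν hν' hn hn' hτ hτ'
  have hB1 : 1 ≤ B := le_trans (le_max_left _ _) hB
  have hB0 : 0 < B := by linarith
  obtain ⟨X, hX⟩ : ∃ X : ℝ, X = B ^ (1 - 3 * δ' / 4) := ⟨_, rfl⟩
  have hX0 : 0 < X := by rw [hX]; positivity
  have ha1 : 1 ≤ a := le_trans (Real.one_le_rpow hB1 (by linarith)) ha
  have ha0 : 0 < a := by linarith
  have hn0 : ∀ k, n k ≠ 0 := by
    intro k hk
    have := hn k
    rw [hk, abs_zero] at this
    have h2 : 0 < B ^ ν := by positivity
    linarith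
  have hnX : ∀ k, |n k| ≤ X := by
    intro k
    refine le_trans (hn' k) ?_
    rw [hX]
    exact Real.rpow_le_rpow_of_exponent_le hB1 (by linarith)
  have hnB : ∀ k, |n k| ≤ B := by
    intro k
    refine le_trans (hnX k) ?_
    rw [hX]
    calc B ^ (1 - 3 * δ' / 4) ≤ B ^ (1 : ℝ) := Real.rpow_le_rpow_of_exponent_le hB1 (by linarith)
      _ = B := Real.rpow_one B
  have hbn : ∀ k, |b / n k| ≤ X := by
    intro k
    have h1 : 0 < |n k| := abs_pos.2 (hn0 k)
    rw [abs_div, hb, div_le_iff₀ h1]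
    calc B = B ^ (1 - ν) * B ^ ν := by
          rw [← Real.rpow_add hB0]
          norm_num
      _ ≤ X * |n k| := by
          apply mul_le_mul _ (hn k) (by positivity) hX0.le
          rw [hX]
          exact Real.rpow_le_rpow_of_exponent_le hB1 (by linarith)
  have hXa : 2 * X ≤ x₀ * a := by
    have h1 : 2 / x₀ ≤ B ^ (δ' / 2) := by
      have h2 : (2 / x₀) ^ (2 / δ') ≤ B := le_trans (le_max_right _ _) hB
      have h3 : ((2 / x₀) ^ (2 / δ')) ^ (δ' / 2) ≤ B ^ (δ' / 2) :=
        Real.rpow_le_rpow (by positivity) h2 (by positivity)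
      rw [← Real.rpow_mul (by positivity)] at h3
      have h4 : 2 / δ' * (δ' / 2) = 1 := by field_simp
      rwa [h4, Real.rpow_one] at h3
    rw [div_le_iff₀ hx₀] at h1
    calc 2 * X ≤ (B ^ (δ' / 2) * x₀) * X := mul_le_mul_of_nonneg_right h1 hX0.le
      _ = x₀ * (B ^ (δ' / 2) * B ^ (1 - 3 * δ' / 4)) := by rw [hX]; ring
      _ = x₀ * B ^ (1 - δ' / 4) := by
          rw [← Real.rpow_add hB0]
          congr 2
          ring
      _ ≤ x₀ * a := by
          apply mul_le_mul_of_nonneg_left _ hx₀.le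
          exact le_trans (Real.rpow_le_rpow_of_exponent_le hB1 (by linarith)) ha
  have hXa' : X ≤ a := by nlinarith
  have hdg : ∀ j : Fin (2 * D), dg D j ≤ D := by
    intro j
    have := j.2
    unfold dg
    split_ifs <;> omega
  have hsa : 1 ≤ √a := Real.one_le_sqrt.2 ha1
  have hBD : 1 ≤ B ^ D := one_le_pow₀ hB1
  have key : ∀ f ∈ Fintype.piFinset (fun _ : Fin (2 * D) => S),
      |(Matrix.of fun k j : Fin (2 * D) => arch_G D K c a b n j (f j) k).det| ≤
        C₃ * B ^ ((τ : ℝ) ^ 2 + 5 * D) := by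
    intro f hf
    rw [Fintype.mem_piFinset] at hf
    have hright : 1 ≤ B ^ ((τ : ℝ) ^ 2 + 5 * D) := Real.one_le_rpow hB1 (by positivity)
    have hnonneg : 0 ≤ C₃ * B ^ ((τ : ℝ) ^ 2 + 5 * D) := by positivity
    by_cases h1 : ∀ j : Fin (2 * D), (j : ℕ) ≤ D → f j = some (0, 0)
    swap
    · push Not at h1
      obtain ⟨j, hj, hj'⟩ := h1
      have : (Matrix.of fun k j : Fin (2 * D) => arch_G D K c a b n j (f j) k).det = 0 := by
        apply Matrix.det_eq_zero_of_column_eq_zero j
        intro k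
        simp [arch_G, hj, hj']
      rw [this, abs_zero]
      exact hnonneg
    by_cases h2 : ∀ j : Fin (2 * D), f j ≠ none
    · -- no error terms
      have h3 : ∀ j : Fin (2 * D), ∃ q : ℕ × ℕ, f j = some q := fun j =>
        Option.ne_none_iff_exists'.1 (h2 j)
      choose q hq using h3
      have hq0 : ∀ j : Fin (2 * D), (j : ℕ) ≤ D → q j = (0, 0) := by
        intro j hj
        have := h1 j hj
        rw [hq j] at this
        exact Option.some_injective _ this
      have hqK : ∀ j : Fin (2 * D), (q j).1 + (q j).2 < K := by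
        intro j
        have := hf j
        rw [hq j, hS, some_mem_insertNone] at this
        simp only [prs, mem_filter, mem_product, mem_range] at this
        exact this.2
      obtain ⟨s, hs⟩ : ∃ s : Fin (2 * D) → ℤ, ∀ j, s j = (dg D j : ℤ) + (q j).1 - (q j).2 :=
        ⟨_, fun j => rfl⟩
      obtain ⟨co, hco⟩ : ∃ co : Fin (2 * D) → ℝ, ∀ j, co j = if (j : ℕ) ≤ D then 1 else
        tc c a b (q j).1 (q j).2 := ⟨_, fun j => rfl⟩
      have hmat : (Matrix.of fun k j : Fin (2 * D) => arch_G D K c a b n j (f j) k) =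
          Matrix.of fun k j : Fin (2 * D) => co j * n k ^ s j := by
        ext k j
        simp only [Matrix.of_apply, arch_G, hq j]
        rw [hs j, hco j]
        by_cases hj : (j : ℕ) ≤ D
        · rw [if_pos hj, if_pos hj, hq0 j hj]
          simp
        · rw [if_neg hj, if_neg hj]
      rw [hmat]
      by_cases hinj : Function.Injective s
      swap
      · rw [det_zero_of_exp _ co s n hinj, abs_zero]
        exact hnonneg
      have hu : ∀ k j, |(Matrix.of fun k j : Fin (2 * D) => co j * n k ^ s j) k j| ≤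
          C₁ * B ^ (1 + ν * (s j : ℝ) - max ((s j : ℝ) - (dg D j : ℝ)) 0) := by
        intro k j
        rw [Matrix.of_apply, hco j]
        by_cases hj : (j : ℕ) ≤ D
        · rw [if_pos hj, one_mul]
          have hsj : s j = (dg D j : ℤ) := by rw [hs j, hq0 j hj]; simp
          have h4 := pow_le D K (dg D j) (hdg j) B (n k) ν η hB1 hη0.le hηK (hn k) (hn' k)
          rw [hsj]
          simp only [Int.cast_natCast, sub_self, max_self, sub_zero]
          refine le_trans h4 ?_
          exact le_mul_of_one_le_left (by positivity) hC₁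
        · rw [if_neg hj]
          have h5 : 1 ≤ (q j).1 + (q j).2 := by
            by_contra hcon
            have h6 : (q j).1 = 0 ∧ (q j).2 = 0 := by omega
            have hjlt := j.2
            have h7 : s j = s ⟨j - D, by omega⟩ := by
              rw [hs j, hs _, hq0 ⟨j - D, by omega⟩ (by simp; omega), h6.1, h6.2]
              simp only [dg, hj, if_false]
              have : (j : ℕ) - D ≤ D := by omega
              rw [if_pos this]
            have h8 := hinj h7
            have h9 : (j : ℕ) = j - D := by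
              conv_lhs => rw [h8]
            omega
          have h4 := term_le C₁ D K (dg D j) (q j).1 (q j).2 c hC₁' (hqK j) h5 (hdg j) B a b (n k) ν η δ
            hB1 hb hδ0.le hη0.le hδK hηK (by linarith) ha (hn k) (hn' k)
          rw [← hs j] at h4
          exact h4
      refine le_trans (det_col_le _ _ _ hu) ?_
      rw [Finset.prod_mul_distrib, Finset.prod_const, Finset.card_univ, Fintype.card_fin,
        ← Real.rpow_sum_of_pos hB0]
      have h10 := comb D τ hD ν (by linarith) (by linarith) hτ hτ' s hinj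
      have h11 : ∑ j : Fin (2 * D), (1 + ν * (s j : ℝ) - max ((s j : ℝ) - (dg D j : ℝ)) 0) ≤
          (τ : ℝ) ^ 2 + 5 * D := by
        have : ∑ j : Fin (2 * D), (1 + ν * (s j : ℝ) - max ((s j : ℝ) - (dg D j : ℝ)) 0) =
            ∑ j : Fin (2 * D), (1 : ℝ) +
              ∑ j : Fin (2 * D), (ν * (s j : ℝ) - max ((s j : ℝ) - (dg D j : ℝ)) 0) := by
          rw [← Finset.sum_add_distrib]
          exact Finset.sum_congr rfl fun j _ => by ring
        rw [this]
        simp only [Finset.sum_const, Finset.card_univ, Fintype.card_fin, nsmul_eq_mul, mul_one]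
        push_cast
        linarith
      have h12 : B ^ (∑ j : Fin (2 * D), (1 + ν * (s j : ℝ) - max ((s j : ℝ) - (dg D j : ℝ)) 0)) ≤
          B ^ ((τ : ℝ) ^ 2 + 5 * D) := Real.rpow_le_rpow_of_exponent_le hB1 h11
      have h13 : C₁ ^ (2 * D) ≤ C₂ ^ (2 * D) :=
        pow_le_pow_left₀ (by linarith) (by rw [hC₂]; linarith) _
      calc ((2 * D).factorial : ℝ) * (C₁ ^ (2 * D) *
            B ^ (∑ j : Fin (2 * D), (1 + ν * (s j : ℝ) - max ((s j : ℝ) - (dg D j : ℝ)) 0)))
          ≤ ((2 * D).factorial : ℝ) * (C₂ ^ (2 * D) * B ^ ((τ : ℝ) ^ 2 + 5 * D)) := by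
            apply mul_le_mul_of_nonneg_left _ (by positivity)
            exact mul_le_mul h13 h12 (by positivity) (by positivity)
        _ ≤ C₃ * B ^ ((τ : ℝ) ^ 2 + 5 * D) := by
            rw [hC₃, ← mul_assoc]
            apply mul_le_mul_of_nonneg_right _ (by positivity)
            exact le_mul_of_one_le_right (by positivity) (one_le_pow₀ (by norm_num))
    · -- some error term
      push Not at h2
      obtain ⟨j₀, hj₀⟩ := h2
      have hu : ∀ k j, |(Matrix.of fun k j : Fin (2 * D) => arch_G D K c a b n j (f j) k) k j| ≤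
          (C₂ * (B ^ D * √a)) * (if j = j₀ then (2 * X / a) ^ K else 1) := by
        intro k j
        rw [Matrix.of_apply]
        have hbase : 1 ≤ C₂ * (B ^ D * √a) := by
          have : 1 ≤ B ^ D * √a := one_le_mul_of_one_le_of_one_le hBD hsa
          exact one_le_mul_of_one_le_of_one_le hC₂1 this
        have hpow1 : (2 * X / a) ^ K ≤ 1 := by
          apply pow_le_one₀ (by positivity)
          rw [div_le_one ha0]
          nlinarith
        by_cases hj : (j : ℕ) ≤ D
        · have hjj : j ≠ j₀ := by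
            rintro rfl
            have := h1 j hj
            rw [hj₀] at this
            exact absurd this (by simp)
          rw [if_neg hjj, mul_one]
          have : arch_G D K c a b n j (f j) k = n k ^ (dg D j) := by
            simp [arch_G, hj, h1 j hj]
          rw [this, abs_pow]
          have h3 : |n k| ^ dg D j ≤ B ^ D := by
            calc |n k| ^ dg D j ≤ B ^ dg D j := pow_le_pow_left₀ (abs_nonneg _) (hnB k) _
              _ ≤ B ^ D := pow_le_pow_right₀ hB1 (hdg j)
          calc |n k| ^ dg D j ≤ B ^ D := h3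
            _ ≤ B ^ D * √a := le_mul_of_one_le_right (by positivity) hsa
            _ ≤ C₂ * (B ^ D * √a) := le_mul_of_one_le_left (by positivity) hC₂1
        · cases hfj : f j with
          | none =>
            have : arch_G D K c a b n j none k = n k ^ (dg D j) * rm c K a b (n k) := by
              simp [arch_G, hj]
            rw [this]
            have h4 := rem_le C₀ x₀ D K (dg D j) c hc hC₀.le (hdg j) B a b (n k) X hB1 (hnB k) hX0 hXa
              ha0 (hnX k) (hbn k)
            refine le_trans h4 ?_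
            have h5 : (2 * X / a) ^ K ≤ (if j = j₀ then (2 * X / a) ^ K else 1) := by
              split_ifs
              · exact le_rfl
              · exact hpow1
            calc C₀ * (B ^ D * √a * (2 * X / a) ^ K) = (C₀ * (B ^ D * √a)) * (2 * X / a) ^ K := by ring
              _ ≤ (C₂ * (B ^ D * √a)) * (if j = j₀ then (2 * X / a) ^ K else 1) := by
                  apply mul_le_mul _ h5 (by positivity) (by positivity)
                  apply mul_le_mul_of_nonneg_right _ (by positivity)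
                  rw [hC₂]; linarith
          | some q =>
            have hjj : j ≠ j₀ := by
              rintro rfl
              rw [hj₀] at hfj
              exact absurd hfj (by simp)
            rw [if_neg hjj, mul_one]
            have : arch_G D K c a b n j (some q) k =
                tc c a b q.1 q.2 * n k ^ ((dg D j : ℤ) + q.1 - q.2) := by
              simp [arch_G, hj]
            rw [this]
            have hqK : q.1 + q.2 < K := by
              have := hf j
              rw [hfj, hS, some_mem_insertNone] at this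
              simp only [prs, mem_filter, mem_product, mem_range] at this
              exact this.2
            refine le_trans (term_triv C₁ D K (dg D j) q.1 q.2 c hC₁' hqK (hdg j) B a b (n k) X hB1
              (hn0 k) (hnB k) hX0 hXa' (hnX k) (hbn k)) ?_
            apply mul_le_mul_of_nonneg_right _ (by positivity)
            rw [hC₂]; linarith
      refine le_trans (det_col_le _ _ _ hu) ?_
      rw [Finset.prod_mul_distrib, Finset.prod_const, Finset.card_univ, Fintype.card_fin,
        Finset.prod_ite_eq' univ j₀, if_pos (mem_univ _)]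
      have hsq : √a ^ (2 * D) = a ^ D := by
        rw [pow_mul, Real.sq_sqrt ha0.le]
      have h20 : a ^ D * (2 * X / a) ^ K ≤ 2 ^ K * B ^ ((D : ℝ) - K * (δ' / 2)) := by
        obtain ⟨E, hE⟩ : ∃ E : ℕ, K = D + E := ⟨K - D, by omega⟩
        have h21 : a ^ D * (2 * X / a) ^ K = 2 ^ K * (X ^ K / a ^ E) := by
          rw [div_pow, mul_pow, hE, pow_add a D E]
          field_simp
        rw [h21]
        apply mul_le_mul_of_nonneg_left _ (by positivity)
        have h22 : (B ^ (1 - δ)) ^ E ≤ a ^ E := pow_le_pow_left₀ (by positivity) ha E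
        have h23 : X ^ K / a ^ E ≤ X ^ K / (B ^ (1 - δ)) ^ E := by
          apply div_le_div_of_nonneg_left (by positivity) (by positivity) h22
        refine le_trans h23 ?_
        rw [hX, ← Real.rpow_natCast, ← Real.rpow_natCast, ← Real.rpow_mul hB0.le,
          ← Real.rpow_mul hB0.le, ← Real.rpow_sub hB0]
        apply Real.rpow_le_rpow_of_exponent_le hB1
        have hER : (E : ℝ) = K - D := by
          rw [hE]; push_cast; ring
        rw [hER]
        have hDK : (0 : ℝ) ≤ (K - D) := by linarith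
        have h24 : δ * (K - D) ≤ (δ' / 4) * (K - D) := mul_le_mul_of_nonneg_right hδ2 hDK
        nlinarith
      have h30 : 4 * (D : ℝ) ^ 2 + 2 * D ≤ K * δ' := by
        rwa [div_le_iff₀ hδ'] at hK2
      have h25 : (B ^ D) ^ (2 * D) * B ^ ((D : ℝ) - K * (δ' / 2)) ≤ B ^ ((τ : ℝ) ^ 2 + 5 * D) := by
        rw [← pow_mul, ← Real.rpow_natCast, ← Real.rpow_add hB0]
        apply Real.rpow_le_rpow_of_exponent_le hB1
        push_cast
        have : 0 ≤ (τ : ℝ) ^ 2 := by positivity
        nlinarith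
      calc ((2 * D).factorial : ℝ) * ((C₂ * (B ^ D * √a)) ^ (2 * D) * (2 * X / a) ^ K)
          = ((2 * D).factorial : ℝ) * C₂ ^ (2 * D) * ((B ^ D) ^ (2 * D) * (a ^ D * (2 * X / a) ^ K)) := by
            rw [mul_pow, mul_pow, hsq]; ring
        _ ≤ ((2 * D).factorial : ℝ) * C₂ ^ (2 * D) * ((B ^ D) ^ (2 * D) *
              (2 ^ K * B ^ ((D : ℝ) - K * (δ' / 2)))) := by
            apply mul_le_mul_of_nonneg_left _ (by positivity)
            exact mul_le_mul_of_nonneg_left h20 (by positivity)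
        _ = C₃ * ((B ^ D) ^ (2 * D) * B ^ ((D : ℝ) - K * (δ' / 2))) := by rw [hC₃]; ring
        _ ≤ C₃ * B ^ ((τ : ℝ) ^ 2 + 5 * D) := mul_le_mul_of_nonneg_left h25 hC₃0.le
  rw [arch_entry D K (by omega) c a b ha0 n hn0, ← hS]
  refine le_trans (det_expand (2 * D) S (arch_G D K c a b n)) ?_
  refine le_trans (Finset.sum_le_sum key) ?_
  rw [Finset.sum_const, Fintype.card_piFinset_const, nsmul_eq_mul]
  apply le_of_eq
  simp only [Nat.cast_pow]
  ring

end Pool.Agent.Lib.MP_6179b0_nt.T
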