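import Mathlib

/-!
# Small divisors
-/

set_option autoImplicit false

namespace Pool.Agent.Lib.MP_6179b0_nt.T

open Finset

/-- The multiplicative structure of the sum of the negative powers of the divisors. -/
theorem TRankin_sum_prod (σ : ℝ) (b : ℕ) (hb : b ≠ 0) :
    ∑ d ∈ b.divisors, (d : ℝ) ^ (-σ) =
      ∏ p ∈ b.primeFactors, ∑ i ∈ Finset.range (b.factorization p + 1), ((p : ℝ) ^ (-σ)) ^ i := by
  let g : ArithmeticFunction ℝ := ⟨fun n => if n = 0 then 0 else (n : ℝ) ^ (-σ), by simp⟩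
  have hgv : ∀ n : ℕ, n ≠ 0 → g n = (n : ℝ) ^ (-σ) := by
    intro n hn
    show (if n = 0 then (0 : ℝ) else (n : ℝ) ^ (-σ)) = _
    rw [if_neg hn]
  have hg : g.IsMultiplicative := by
    rw [ArithmeticFunction.IsMultiplicative.iff_ne_zero]
    refine ⟨?_, fun {m n} hm hn _ => ?_⟩
    · rw [hgv 1 one_ne_zero]
      simp
    · rw [hgv _ (mul_ne_zero hm hn), hgv _ hm, hgv _ hn, Nat.cast_mul,
        Real.mul_rpow (Nat.cast_nonneg _) (Nat.cast_nonneg _)]
  have hz := (ArithmeticFunction.isMultiplicative_zeta.natCast (R := ℝ)).mul hg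
  have h := ArithmeticFunction.IsMultiplicative.multiplicative_factorization _ hz hb
  rw [ArithmeticFunction.coe_zeta_mul_apply] at h
  have h1 : ∑ d ∈ b.divisors, (d : ℝ) ^ (-σ) = ∑ d ∈ b.divisors, g d := by
    refine Finset.sum_congr rfl fun d hd => ?_
    rw [hgv d (Nat.pos_of_mem_divisors hd).ne']
  rw [h1, h, Finsupp.prod, Nat.support_factorization]
  refine Finset.prod_congr rfl fun p hp => ?_
  have hpp := Nat.prime_of_mem_primeFactors hp
  rw [ArithmeticFunction.coe_zeta_mul_apply, Nat.sum_divisors_prime_pow hpp]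
  refine Finset.sum_congr rfl fun i _ => ?_
  rw [hgv _ (pow_ne_zero _ hpp.ne_zero), Nat.cast_pow, ← Real.rpow_natCast, ← Real.rpow_mul
    (Nat.cast_nonneg _), ← Real.rpow_natCast, ← Real.rpow_mul (Nat.cast_nonneg _), mul_comm]

/-- The exponents are at most `log b / log 2`. -/
theorem TRankin_exp_le (b p : ℕ) (hb : b ≠ 0) (hp : p.Prime) :
    (b.factorization p : ℝ) ≤ Real.log b / Real.log 2 := by
  have h2 : (0 : ℝ) < Real.log 2 := Real.log_pos (by norm_num)
  rw [le_div_iff₀ h2]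
  have h : (2 : ℝ) ^ (b.factorization p) ≤ b := by
    have h1 : p ^ (b.factorization p) ≤ b := Nat.le_of_dvd (Nat.pos_of_ne_zero hb)
      (Nat.ordProj_dvd b p)
    have h3 : 2 ^ (b.factorization p) ≤ p ^ (b.factorization p) :=
      Nat.pow_le_pow_left hp.two_le _
    exact_mod_cast h3.trans h1
  have h4 := Real.log_le_log (by positivity) h
  rwa [Real.log_pow] at h4

/-- The logarithm of `b` through the exponents of a set of primes. -/
theorem TRankin_sum_log_le (b : ℕ) (S : Finset ℕ) (hS : S ⊆ b.primeFactors) :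
    ∑ p ∈ S, (b.factorization p : ℝ) * Real.log p ≤ Real.log b := by
  rw [Real.log_nat_eq_sum_factorization b, Finsupp.sum, Nat.support_factorization]
  refine Finset.sum_le_sum_of_subset_of_nonneg hS fun p hp _ => ?_
  have := (Nat.prime_of_mem_primeFactors hp).one_lt
  have h1 : (0 : ℝ) ≤ Real.log p := Real.log_nonneg (by exact_mod_cast this.le)
  positivity

/-- The number of small primes. -/
theorem TRankin_card_le (S : Finset ℕ) (y : ℝ) (hS : ∀ p ∈ S, 1 ≤ p ∧ (p : ℝ) < y) (hy : 0 ≤ y) :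
    (S.card : ℝ) ≤ y := by
  have h1 : S ⊆ Finset.Icc 1 ⌊y⌋₊ := by
    intro p hp
    rw [Finset.mem_Icc]
    exact ⟨(hS p hp).1, Nat.le_floor (hS p hp).2.le⟩
  have h2 := Finset.card_le_card h1
  rw [Nat.card_Icc] at h2
  calc (S.card : ℝ) ≤ (⌊y⌋₊ : ℝ) := by exact_mod_cast (by omega)
    _ ≤ y := Nat.floor_le hy

/-- The sum of the exponents of the large primes. -/
theorem TRankin_sum_exp_le (b : ℕ) (S : Finset ℕ) (y : ℝ) (hy : 1 < y)
    (hS : ∀ p ∈ S, y ≤ (p : ℝ)) :
    ∑ p ∈ S, (b.factorization p : ℝ) ≤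
      (∑ p ∈ S, (b.factorization p : ℝ) * Real.log p) / Real.log y := by
  rw [le_div_iff₀ (Real.log_pos hy), Finset.sum_mul]
  refine Finset.sum_le_sum fun p hp => ?_
  refine mul_le_mul_of_nonneg_left (Real.log_le_log (by linarith) (hS p hp)) (Nat.cast_nonneg _)

/-- A product over small primes. -/
theorem TRankin_prod_small (S : Finset ℕ) (y M : ℝ) (hS : ∀ p ∈ S, 1 ≤ p ∧ (p : ℝ) < y)
    (hy : 0 ≤ y) (hM : 1 ≤ M) (f : ℕ → ℝ) (hf0 : ∀ p ∈ S, 0 ≤ f p) (hf : ∀ p ∈ S, f p ≤ M) :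
    ∏ p ∈ S, f p ≤ Real.exp (y * Real.log M) := by
  have h1 : ∏ p ∈ S, f p ≤ ∏ _p ∈ S, M := Finset.prod_le_prod hf0 hf
  rw [Finset.prod_const] at h1
  refine h1.trans ?_
  have h2 : M ^ S.card = Real.exp ((S.card : ℝ) * Real.log M) := by
    rw [← Real.log_pow, Real.exp_log (by positivity)]
  rw [h2, Real.exp_le_exp]
  exact mul_le_mul_of_nonneg_right (TRankin_card_le S y hS hy) (Real.log_nonneg hM)

/-- Growth of the logarithms. -/
theorem TRankin_asymp (ε : ℝ) (hε : 0 < ε) : ∃ N₀ : ℕ, ∀ b : ℕ, N₀ ≤ b →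
    3 ≤ Real.log b ∧ 2 * Real.sqrt (Real.log b) * Real.log (Real.log b) ≤
      ε / 4 * (Real.log b / Real.log (Real.log b)) := by
  have h1 : Filter.Tendsto (fun x : ℝ => Real.log x ^ 2 / (1 * x + 0)) Filter.atTop (nhds 0) :=
    Real.tendsto_pow_log_div_mul_add_atTop 1 0 2 one_ne_zero
  have h2 : Filter.Tendsto (fun b : ℕ => Real.log (b : ℝ)) Filter.atTop Filter.atTop :=
    Real.tendsto_log_atTop.comp tendsto_natCast_atTop_atTop
  have h3 : Filter.Tendsto (fun b : ℕ => Real.sqrt (Real.log (b : ℝ))) Filter.atTop Filter.atTop :=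
    Real.tendsto_sqrt_atTop.comp h2
  have h4 := (h1.comp h3).eventually (gt_mem_nhds (show (0 : ℝ) < ε / 32 by positivity))
  have h5 := h2.eventually (Filter.eventually_ge_atTop 3)
  obtain ⟨N₀, hN⟩ := Filter.eventually_atTop.1 (h4.and h5)
  refine ⟨N₀, fun b hb => ?_⟩
  obtain ⟨h6, h7⟩ := hN b hb
  refine ⟨h7, ?_⟩
  simp only [Function.comp] at h6
  set L := Real.log (b : ℝ) with hL
  have hLpos : (0 : ℝ) < L := by linarith
  have hs : 0 < Real.sqrt L := Real.sqrt_pos.2 hLpos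
  have hss : Real.sqrt L * Real.sqrt L = L := Real.mul_self_sqrt hLpos.le
  have hl : 0 < Real.log L := Real.log_pos (by linarith)
  rw [one_mul, add_zero, div_lt_iff₀ hs, Real.log_sqrt hLpos.le] at h6
  rw [← mul_div_assoc, le_div_iff₀ hl]
  have h8 : 8 * (Real.log L) ^ 2 ≤ ε * Real.sqrt L := by nlinarith
  calc 2 * Real.sqrt L * Real.log L * Real.log L
      = (8 * (Real.log L) ^ 2) * Real.sqrt L / 4 := by ring
    _ ≤ (ε * Real.sqrt L) * Real.sqrt L / 4 := by gcongr
    _ = ε / 4 * (Real.sqrt L * Real.sqrt L) := by ring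
    _ = ε / 4 * L := by rw [hss]

/-- The bound for the logarithm of the small factor. -/
theorem TRankin_log_le (L : ℝ) (hL : 3 ≤ L) :
    Real.log (L / Real.log 2 + 1) ≤ 2 * Real.log L := by
  have h2 : (1 / 2 : ℝ) < Real.log 2 := by
    have := Real.log_two_gt_d9
    linarith
  have h3 : Real.log (L ^ 2) = 2 * Real.log L := by
    rw [Real.log_pow]
    norm_num
  rw [← h3]
  apply Real.log_le_log (by positivity)
  have h4 : L / Real.log 2 ≤ 2 * L := by
    rw [div_le_iff₀ (by linarith)]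
    nlinarith
  nlinarith

/-- The Rankin bound. -/
theorem TRankin_core (b : ℕ) (hb : b ≠ 0) (σ y δ : ℝ) (hσ : 0 < σ) (hy : 1 < y) :
    ((b.divisors.filter (fun d : ℕ => (d : ℝ) ≤ (b : ℝ) ^ δ)).card : ℝ) ≤
      Real.exp (δ * σ * Real.log b + y * Real.log (Real.log b / Real.log 2 + 1) +
        y ^ (-σ) * (Real.log b / Real.log y)) := by
  have hbpos : (0 : ℝ) < b := by exact_mod_cast Nat.pos_of_ne_zero hb
  have hy0 : (0 : ℝ) < y := by linarith
  have h2 : (0 : ℝ) < Real.log 2 := Real.log_pos (by norm_num)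
  have h1 : ((b.divisors.filter (fun d : ℕ => (d : ℝ) ≤ (b : ℝ) ^ δ)).card : ℝ) ≤
      Real.exp (δ * σ * Real.log b) * ∑ d ∈ b.divisors, (d : ℝ) ^ (-σ) := by
    rw [Finset.mul_sum, Finset.card_eq_sum_ones, Nat.cast_sum]
    have h3 : ∑ d ∈ b.divisors.filter (fun d : ℕ => (d : ℝ) ≤ (b : ℝ) ^ δ), ((1 : ℕ) : ℝ) ≤
        ∑ d ∈ b.divisors.filter (fun d : ℕ => (d : ℝ) ≤ (b : ℝ) ^ δ),
          Real.exp (δ * σ * Real.log b) * (d : ℝ) ^ (-σ) := by
      refine Finset.sum_le_sum fun d hd => ?_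
      rw [Finset.mem_filter] at hd
      have hd0 : (0 : ℝ) < d := by exact_mod_cast Nat.pos_of_mem_divisors hd.1
      have h4 : (d : ℝ) ^ σ ≤ ((b : ℝ) ^ δ) ^ σ := Real.rpow_le_rpow hd0.le hd.2 hσ.le
      have h5 : ((b : ℝ) ^ δ) ^ σ = Real.exp (δ * σ * Real.log b) := by
        rw [← Real.rpow_mul hbpos.le, Real.rpow_def_of_pos hbpos]
        congr 1
        ring
      rw [h5] at h4
      rw [Real.rpow_neg hd0.le, Nat.cast_one, ← div_eq_mul_inv, one_le_div (by positivity)]
      exact h4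
    refine h3.trans (Finset.sum_le_sum_of_subset_of_nonneg (Finset.filter_subset _ _) ?_)
    intro d _ _
    positivity
  rw [TRankin_sum_prod σ b hb,
    ← Finset.prod_filter_mul_prod_filter_not b.primeFactors (fun p : ℕ => (p : ℝ) < y)] at h1
  have hM : (1 : ℝ) ≤ Real.log b / Real.log 2 + 1 := by
    have : 0 ≤ Real.log b / Real.log 2 := by positivity
    linarith
  have hle1 : ∀ p ∈ b.primeFactors, (p : ℝ) ^ (-σ) ≤ 1 ∧ 0 ≤ (p : ℝ) ^ (-σ) := by
    intro p hp
    have hp1 := (Nat.prime_of_mem_primeFactors hp).one_lt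
    have hp2 : (1 : ℝ) ≤ p := by exact_mod_cast hp1.le
    exact ⟨Real.rpow_le_one_of_one_le_of_nonpos hp2 (by linarith), by positivity⟩
  have hsmall : ∏ p ∈ b.primeFactors.filter (fun p : ℕ => (p : ℝ) < y),
      ∑ i ∈ Finset.range (b.factorization p + 1), ((p : ℝ) ^ (-σ)) ^ i ≤
      Real.exp (y * Real.log (Real.log b / Real.log 2 + 1)) := by
    refine TRankin_prod_small _ y _ ?_ hy0.le hM _ ?_ ?_
    · intro p hp
      rw [Finset.mem_filter] at hp
      exact ⟨(Nat.prime_of_mem_primeFactors hp.1).one_lt.le, hp.2⟩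
    · intro p hp
      rw [Finset.mem_filter] at hp
      have := (hle1 p hp.1).2
      positivity
    · intro p hp
      rw [Finset.mem_filter] at hp
      have h3 : ∑ i ∈ Finset.range (b.factorization p + 1), ((p : ℝ) ^ (-σ)) ^ i ≤
          ∑ _i ∈ Finset.range (b.factorization p + 1), (1 : ℝ) :=
        Finset.sum_le_sum fun i _ => pow_le_one₀ (hle1 p hp.1).2 (hle1 p hp.1).1
      rw [Finset.sum_const, Finset.card_range, nsmul_eq_mul, mul_one] at h3
      push_cast at h3
      have h4 := TRankin_exp_le b p hb (Nat.prime_of_mem_primeFactors hp.1)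
      linarith
  have hlarge : ∏ p ∈ b.primeFactors.filter (fun p : ℕ => ¬ (p : ℝ) < y),
      ∑ i ∈ Finset.range (b.factorization p + 1), ((p : ℝ) ^ (-σ)) ^ i ≤
      Real.exp (y ^ (-σ) * (Real.log b / Real.log y)) := by
    have h3 : ∏ p ∈ b.primeFactors.filter (fun p : ℕ => ¬ (p : ℝ) < y),
        ∑ i ∈ Finset.range (b.factorization p + 1), ((p : ℝ) ^ (-σ)) ^ i ≤
        ∏ p ∈ b.primeFactors.filter (fun p : ℕ => ¬ (p : ℝ) < y),
          Real.exp ((b.factorization p : ℝ) * y ^ (-σ)) := by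
      refine Finset.prod_le_prod ?_ ?_
      · intro p hp
        rw [Finset.mem_filter] at hp
        have := (hle1 p hp.1).2
        positivity
      · intro p hp
        rw [Finset.mem_filter, not_lt] at hp
        obtain ⟨h5, h6⟩ := hle1 p hp.1
        rw [Finset.sum_range_succ']
        have h7 : ∑ i ∈ Finset.range (b.factorization p), ((p : ℝ) ^ (-σ)) ^ (i + 1) ≤
            ∑ _i ∈ Finset.range (b.factorization p), y ^ (-σ) := by
          refine Finset.sum_le_sum fun i _ => ?_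
          have h8 : (p : ℝ) ^ (-σ) ≤ y ^ (-σ) :=
            Real.rpow_le_rpow_of_nonpos hy0 hp.2 (by linarith)
          calc ((p : ℝ) ^ (-σ)) ^ (i + 1) = ((p : ℝ) ^ (-σ)) ^ i * (p : ℝ) ^ (-σ) := pow_succ _ _
            _ ≤ 1 * y ^ (-σ) := mul_le_mul (pow_le_one₀ h6 h5) h8 h6 zero_le_one
            _ = y ^ (-σ) := one_mul _
        rw [Finset.sum_const, Finset.card_range, nsmul_eq_mul] at h7
        have h9 := Real.add_one_le_exp ((b.factorization p : ℝ) * y ^ (-σ))
        simp only [pow_zero]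
        linarith
    refine h3.trans ?_
    rw [← Real.exp_sum, Real.exp_le_exp, ← Finset.sum_mul, mul_comm]
    refine mul_le_mul_of_nonneg_left ?_ (by positivity)
    refine (TRankin_sum_exp_le b _ y hy ?_).trans ?_
    · intro p hp
      rw [Finset.mem_filter, not_lt] at hp
      exact hp.2
    · have hly := Real.log_pos hy
      gcongr
      exact TRankin_sum_log_le b _ (Finset.filter_subset _ _)
  have hnn : 0 ≤ ∏ p ∈ b.primeFactors.filter (fun p : ℕ => ¬ (p : ℝ) < y),
      ∑ i ∈ Finset.range (b.factorization p + 1), ((p : ℝ) ^ (-σ)) ^ i := by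
    refine Finset.prod_nonneg fun p hp => ?_
    rw [Finset.mem_filter] at hp
    have := (hle1 p hp.1).2
    positivity
  refine h1.trans ?_
  rw [Real.exp_add, Real.exp_add, mul_assoc (Real.exp (δ * σ * Real.log b))]
  refine mul_le_mul_of_nonneg_left ?_ (Real.exp_pos _).le
  exact mul_le_mul hsmall hlarge hnn (Real.exp_pos _).le

theorem small_divisors (ε : ℝ) (hε : 0 < ε) : ∃ (δ' : ℝ) (N₀ : ℕ), 0 < δ' ∧ δ' < 1 / 2 ∧
    ∀ b : ℕ, N₀ ≤ b → ((b.divisors.filter (fun d : ℕ => (d : ℝ) ≤ (b : ℝ) ^ δ')).card : ℝ) ≤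
      Real.exp (ε * Real.log b / Real.log (Real.log b)) := by
  obtain ⟨N₀, hN⟩ := TRankin_asymp ε hε
  -- the constant `κ`
  obtain ⟨κ, hκ0, hκ⟩ : ∃ κ : ℝ, 0 < κ ∧ 2 * Real.exp (-(κ / 2)) ≤ ε / 4 := by
    refine ⟨max 1 (2 * Real.log (8 / ε)), lt_of_lt_of_le one_pos (le_max_left _ _), ?_⟩
    have h1 : Real.log (8 / ε) ≤ max 1 (2 * Real.log (8 / ε)) / 2 := by
      have := le_max_right 1 (2 * Real.log (8 / ε))
      linarith
    have h2 : Real.exp (-(max 1 (2 * Real.log (8 / ε)) / 2)) ≤ Real.exp (-Real.log (8 / ε)) := by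
      rw [Real.exp_le_exp]
      linarith
    rw [Real.exp_neg (Real.log (8 / ε)), Real.exp_log (by positivity), inv_div] at h2
    linarith
  refine ⟨min (1 / 4) (ε / (4 * κ)), N₀, lt_min (by norm_num) (by positivity),
    lt_of_le_of_lt (min_le_left _ _) (by norm_num), fun b hb => ?_⟩
  obtain ⟨hL3, hasy⟩ := hN b hb
  set L := Real.log (b : ℝ) with hL
  have hLpos : (0 : ℝ) < L := by linarith
  have hb0 : b ≠ 0 := by
    rintro rfl
    rw [hL, Nat.cast_zero, Real.log_zero] at hLpos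
    exact lt_irrefl _ hLpos
  have hl : 0 < Real.log L := Real.log_pos (by linarith)
  have hs1 : 1 < Real.sqrt L := by
    rw [Real.lt_sqrt (by norm_num)]
    linarith
  have hcore := TRankin_core b hb0 (κ / Real.log L) (Real.sqrt L) (min (1 / 4) (ε / (4 * κ)))
    (by positivity) hs1
  refine hcore.trans ?_
  rw [Real.exp_le_exp, ← hL]
  have e1 : min (1 / 4) (ε / (4 * κ)) * (κ / Real.log L) * L ≤ ε / 4 * (L / Real.log L) := by
    have h1 : min (1 / 4) (ε / (4 * κ)) ≤ ε / (4 * κ) := min_le_right _ _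
    calc min (1 / 4) (ε / (4 * κ)) * (κ / Real.log L) * L
        ≤ ε / (4 * κ) * (κ / Real.log L) * L := by gcongr
      _ = ε / 4 * (L / Real.log L) := by
          field_simp
  have e2 : Real.sqrt L * Real.log (L / Real.log 2 + 1) ≤ ε / 4 * (L / Real.log L) := by
    refine le_trans ?_ hasy
    calc Real.sqrt L * Real.log (L / Real.log 2 + 1) ≤ Real.sqrt L * (2 * Real.log L) :=
          mul_le_mul_of_nonneg_left (TRankin_log_le L hL3) (Real.sqrt_nonneg _)
      _ = 2 * Real.sqrt L * Real.log L := by ring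
  have e3 : Real.sqrt L ^ (-(κ / Real.log L)) * (L / Real.log (Real.sqrt L)) ≤
      ε / 4 * (L / Real.log L) := by
    have h1 : Real.sqrt L ^ (-(κ / Real.log L)) = Real.exp (-(κ / 2)) := by
      rw [Real.rpow_def_of_pos (by linarith), Real.log_sqrt hLpos.le]
      congr 1
      field_simp
    rw [h1, Real.log_sqrt hLpos.le]
    calc Real.exp (-(κ / 2)) * (L / (Real.log L / 2))
        = (2 * Real.exp (-(κ / 2))) * (L / Real.log L) := by
          field_simp
      _ ≤ ε / 4 * (L / Real.log L) := by gcongr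
  have e4 : 0 ≤ ε / 4 * (L / Real.log L) := by positivity
  calc _ ≤ ε / 4 * (L / Real.log L) + ε / 4 * (L / Real.log L) + ε / 4 * (L / Real.log L) := by
        gcongr
    _ ≤ ε * L / Real.log L := by
        rw [mul_div_assoc]
        linarith

end Pool.Agent.Lib.MP_6179b0_nt.T
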