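import Mathlib
import Pool.Agent.Lib.MP_6179b0_nt.T.TRankin

/-!
# A large unitary divisor with few divisors
-/

set_option autoImplicit false

namespace Pool.Agent.Lib.MP_6179b0_nt.T

open Finset

/-- A subset whose weight lies in a dyadic window. -/
theorem TCoprime_window (a : ℕ → ℝ) (c : ℝ) (hc : 0 < c) (S : Finset ℕ) :
    (∀ p ∈ S, a p < c) → c ≤ ∑ p ∈ S, a p →
      ∃ T ⊆ S, c ≤ ∑ p ∈ T, a p ∧ ∑ p ∈ T, a p ≤ 2 * c := by
  induction S using Finset.induction_on with
  | empty =>
    intro _ h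
    rw [Finset.sum_empty] at h
    exact absurd h (not_le.2 hc)
  | insert p S hp ih =>
    intro h1 h2
    by_cases h3 : c ≤ ∑ p ∈ S, a p
    · obtain ⟨T, hT, h4, h5⟩ := ih (fun q hq => h1 q (Finset.mem_insert_of_mem hq)) h3
      exact ⟨T, hT.trans (Finset.subset_insert _ _), h4, h5⟩
    · refine ⟨insert p S, Finset.Subset.refl _, h2, ?_⟩
      rw [Finset.sum_insert hp]
      have := h1 p (Finset.mem_insert_self _ _)
      linarith [not_le.1 h3]

/-- The number of divisors of a product of prime powers. -/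
theorem TCoprime_card (e : ℕ → ℕ) (S : Finset ℕ) (hS : ∀ p ∈ S, p.Prime) :
    (∏ p ∈ S, p ^ e p).divisors.card = ∏ p ∈ S, (e p + 1) := by
  induction S using Finset.induction_on with
  | empty => simp
  | insert p S hp ih =>
    have hpp := hS p (Finset.mem_insert_self _ _)
    have hcop : Nat.Coprime (p ^ e p) (∏ q ∈ S, q ^ e q) := by
      refine Nat.Coprime.prod_right fun q hq => ?_
      refine Nat.coprime_pow_primes _ _ hpp (hS q (Finset.mem_insert_of_mem hq)) ?_
      rintro rfl
      exact hp hq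
    rw [Finset.prod_insert hp, Finset.prod_insert hp, hcop.card_divisors_mul,
      ih (fun q hq => hS q (Finset.mem_insert_of_mem hq)), Nat.divisors_prime_pow hpp,
      Finset.card_map, Finset.card_range]

/-- The number of divisors through the sum of the exponents. -/
theorem TCoprime_prod_le (e : ℕ → ℕ) (S : Finset ℕ) :
    ((∏ p ∈ S, (e p + 1) : ℕ) : ℝ) ≤ Real.exp (Real.log 2 * ∑ p ∈ S, (e p : ℝ)) := by
  rw [Finset.mul_sum, Real.exp_sum, Nat.cast_prod]
  refine Finset.prod_le_prod (fun _ _ => Nat.cast_nonneg _) fun p _ => ?_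
  rw [Real.exp_mul, Real.exp_log (by norm_num), Real.rpow_natCast]
  have h : e p + 1 ≤ 2 ^ e p := Nat.lt_two_pow_self
  exact_mod_cast h

/-- The splitting of `b`. -/
theorem TCoprime_split (b : ℕ) (hb : b ≠ 0) (S : Finset ℕ) (hS : S ⊆ b.primeFactors) :
    b = (∏ p ∈ S, p ^ b.factorization p) * ∏ p ∈ b.primeFactors \ S, p ^ b.factorization p ∧
    Nat.Coprime (∏ p ∈ S, p ^ b.factorization p)
      (∏ p ∈ b.primeFactors \ S, p ^ b.factorization p) := by
  constructor
  · rw [mul_comm, Finset.prod_sdiff hS]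
    have := Nat.prod_factorization_pow_eq_self hb
    rw [Finsupp.prod, Nat.support_factorization] at this
    exact this.symm
  · refine Nat.Coprime.prod_left fun p hp => Nat.Coprime.prod_right fun q hq => ?_
    rw [Finset.mem_sdiff] at hq
    refine Nat.coprime_pow_primes _ _ (Nat.prime_of_mem_primeFactors (hS hp))
      (Nat.prime_of_mem_primeFactors hq.1) ?_
    rintro rfl
    exact hq.2 hp

/-- The logarithm of a product of prime powers. -/
theorem TCoprime_log (e : ℕ → ℕ) (S : Finset ℕ) (hS : ∀ p ∈ S, p.Prime) :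
    Real.log ((∏ p ∈ S, p ^ e p : ℕ) : ℝ) = ∑ p ∈ S, (e p : ℝ) * Real.log p := by
  rw [Nat.cast_prod, Real.log_prod]
  · refine Finset.sum_congr rfl fun p _ => ?_
    rw [Nat.cast_pow, Real.log_pow]
  · intro p hp
    have := (hS p hp).pos
    positivity

theorem exists_factor (ε : ℝ) (hε : 0 < ε) : ∃ (w : ℝ) (N₀ : ℕ), 0 < w ∧
    ∀ b : ℕ, N₀ ≤ b →
      ((b.divisors.card : ℝ) ≤ Real.exp (ε * Real.log b / Real.log (Real.log b))) ∨
      ∃ u v : ℕ, b = u * v ∧ Nat.Coprime u v ∧ (b : ℝ) ^ w ≤ u ∧
        (u.divisors.card : ℝ) ≤ Real.exp (ε * Real.log b / Real.log (Real.log b)) := by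
  obtain ⟨N₀, hN⟩ := TRankin_asymp ε hε
  have h2 : (0 : ℝ) < Real.log 2 := Real.log_pos (by norm_num)
  set w : ℝ := ε / (8 * Real.log 2) with hw
  have hwpos : 0 < w := by positivity
  refine ⟨w, N₀, hwpos, fun b hb => ?_⟩
  obtain ⟨hL3, hasy⟩ := hN b hb
  set L := Real.log (b : ℝ) with hL
  have hLpos : (0 : ℝ) < L := by linarith
  have hb0 : b ≠ 0 := by
    rintro rfl
    rw [hL, Nat.cast_zero, Real.log_zero] at hLpos
    exact lt_irrefl _ hLpos
  have hbpos : (0 : ℝ) < b := by exact_mod_cast Nat.pos_of_ne_zero hb0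
  have hl : 0 < Real.log L := Real.log_pos (by linarith)
  have hs1 : 1 < Real.sqrt L := by
    rw [Real.lt_sqrt (by norm_num)]
    linarith
  have hlogs : Real.log (Real.sqrt L) = Real.log L / 2 := Real.log_sqrt hLpos.le
  have hM : (1 : ℝ) ≤ L / Real.log 2 + 1 := by
    have : 0 ≤ L / Real.log 2 := by positivity
    linarith
  have hMlog : Real.sqrt L * Real.log (L / Real.log 2 + 1) ≤ ε / 4 * (L / Real.log L) := by
    refine le_trans ?_ hasy
    calc Real.sqrt L * Real.log (L / Real.log 2 + 1) ≤ Real.sqrt L * (2 * Real.log L) :=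
          mul_le_mul_of_nonneg_left (TRankin_log_le L hL3) (Real.sqrt_nonneg _)
      _ = 2 * Real.sqrt L * Real.log L := by ring
  have hX : 0 ≤ L / Real.log L := by positivity
  have hpow : (b : ℝ) ^ w = Real.exp (w * L) := by
    rw [Real.rpow_def_of_pos hbpos, mul_comm]
  -- a bound for the number of divisors through the weight
  have hcardS : ∀ (S : Finset ℕ) (m : ℝ), S ⊆ b.primeFactors →
      (∀ p ∈ S, Real.sqrt L ≤ (p : ℝ)) → ∑ p ∈ S, (b.factorization p : ℝ) * Real.log p ≤ m →
      ((∏ p ∈ S, (b.factorization p + 1) : ℕ) : ℝ) ≤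
        Real.exp (2 * Real.log 2 * (m / Real.log L)) := by
    intro S m hS hSy hm
    refine (TCoprime_prod_le _ S).trans ?_
    rw [Real.exp_le_exp]
    have h3 := TRankin_sum_exp_le b S (Real.sqrt L) hs1 hSy
    rw [hlogs] at h3
    calc Real.log 2 * ∑ p ∈ S, (b.factorization p : ℝ)
        ≤ Real.log 2 * ((∑ p ∈ S, (b.factorization p : ℝ) * Real.log p) / (Real.log L / 2)) := by
          gcongr
      _ ≤ Real.log 2 * (m / (Real.log L / 2)) := by gcongr
      _ = 2 * Real.log 2 * (m / Real.log L) := by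
          field_simp
  set P := b.primeFactors.filter (fun p : ℕ => ¬ (p : ℝ) < Real.sqrt L) with hP
  have hPsub : P ⊆ b.primeFactors := Finset.filter_subset _ _
  have hPy : ∀ p ∈ P, Real.sqrt L ≤ (p : ℝ) := by
    intro p hp
    rw [hP, Finset.mem_filter, not_lt] at hp
    exact hp.2
  -- the general construction
  have hmk : ∀ S : Finset ℕ, S ⊆ P → w * L ≤ ∑ p ∈ S, (b.factorization p : ℝ) * Real.log p →
      ((∏ p ∈ S, (b.factorization p + 1) : ℕ) : ℝ) ≤ Real.exp (ε * L / Real.log L) →
      ∃ u v : ℕ, b = u * v ∧ Nat.Coprime u v ∧ (b : ℝ) ^ w ≤ u ∧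
        (u.divisors.card : ℝ) ≤ Real.exp (ε * L / Real.log L) := by
    intro S hS h3 h4
    have hSb := hS.trans hPsub
    have hpr : ∀ p ∈ S, p.Prime := fun p hp => Nat.prime_of_mem_primeFactors (hSb hp)
    obtain ⟨h5, h6⟩ := TCoprime_split b hb0 S hSb
    refine ⟨_, _, h5, h6, ?_, ?_⟩
    · rw [hpow]
      have h7 : (0 : ℝ) < ((∏ p ∈ S, p ^ b.factorization p : ℕ) : ℝ) := by
        have : 0 < ∏ p ∈ S, p ^ b.factorization p :=
          Finset.prod_pos fun p hp => pow_pos (hpr p hp).pos _
        exact_mod_cast this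
      rw [← Real.exp_log h7, Real.exp_le_exp, TCoprime_log _ _ hpr]
      exact h3
    · rw [TCoprime_card _ _ hpr]
      exact h4
  by_cases hbig : w * L ≤ ∑ p ∈ P, (b.factorization p : ℝ) * Real.log p
  · right
    by_cases hone : ∀ p ∈ P, (b.factorization p : ℝ) * Real.log p < w * L
    · obtain ⟨T, hT, h3, h4⟩ := TCoprime_window _ _ (mul_pos hwpos hLpos) P hone hbig
      refine hmk T hT h3 ((hcardS T _ (hT.trans hPsub) (fun p hp => hPy p (hT hp)) h4).trans ?_)
      rw [Real.exp_le_exp, mul_div_assoc ε L (Real.log L)]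
      have e1 : 2 * Real.log 2 * (2 * (w * L) / Real.log L) = (4 * Real.log 2 * w) *
        (L / Real.log L) := by ring
      have e2 : 4 * Real.log 2 * w = ε / 2 := by
        rw [hw]
        field_simp
        norm_num
      rw [e1, e2]
      have : 0 ≤ ε * (L / Real.log L) := by positivity
      linarith
    · push Not at hone
      obtain ⟨p, hp, h3⟩ := hone
      refine hmk {p} (Finset.singleton_subset_iff.2 hp) (by rw [Finset.sum_singleton]; exact h3) ?_
      rw [Finset.prod_singleton, mul_div_assoc ε L (Real.log L)]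
      have h4 := TRankin_exp_le b p hb0 (Nat.prime_of_mem_primeFactors (hPsub hp))
      have h5 : ((b.factorization p + 1 : ℕ) : ℝ) ≤ L / Real.log 2 + 1 := by
        push_cast
        linarith
      refine h5.trans ?_
      rw [← Real.exp_log (show (0 : ℝ) < L / Real.log 2 + 1 by linarith), Real.exp_le_exp]
      have h6 : 0 ≤ Real.log (L / Real.log 2 + 1) := Real.log_nonneg hM
      have h7 : Real.log (L / Real.log 2 + 1) ≤ Real.sqrt L * Real.log (L / Real.log 2 + 1) :=
        le_mul_of_one_le_left h6 hs1.le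
      have : 0 ≤ ε * (L / Real.log L) := by positivity
      linarith
  · left
    rw [not_le] at hbig
    rw [Nat.card_divisors hb0,
      ← Finset.prod_filter_mul_prod_filter_not b.primeFactors
        (fun p : ℕ => (p : ℝ) < Real.sqrt L), Nat.cast_mul]
    have hsmall : ((∏ p ∈ b.primeFactors.filter (fun p : ℕ => (p : ℝ) < Real.sqrt L),
        (b.factorization p + 1) : ℕ) : ℝ) ≤
        Real.exp (Real.sqrt L * Real.log (L / Real.log 2 + 1)) := by
      rw [Nat.cast_prod]
      refine TRankin_prod_small _ _ _ ?_ (Real.sqrt_nonneg _) hM _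
        (fun _ _ => Nat.cast_nonneg _) ?_
      · intro p hp
        rw [Finset.mem_filter] at hp
        exact ⟨(Nat.prime_of_mem_primeFactors hp.1).one_lt.le, hp.2⟩
      · intro p hp
        rw [Finset.mem_filter] at hp
        have h4 := TRankin_exp_le b p hb0 (Nat.prime_of_mem_primeFactors hp.1)
        push_cast
        linarith
    have hlarge := hcardS P (w * L) hPsub hPy hbig.le
    refine (mul_le_mul hsmall hlarge (Nat.cast_nonneg _) (Real.exp_pos _).le).trans ?_
    rw [← Real.exp_add, Real.exp_le_exp, mul_div_assoc ε L (Real.log L)]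
    have e1 : 2 * Real.log 2 * (w * L / Real.log L) = (2 * Real.log 2 * w) *
      (L / Real.log L) := by ring
    have e2 : 2 * Real.log 2 * w = ε / 4 := by
      rw [hw]
      field_simp
      norm_num
    rw [e1, e2]
    have : 0 ≤ ε * (L / Real.log L) := by positivity
    linarith

end Pool.Agent.Lib.MP_6179b0_nt.T
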