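import Mathlib
import Pool.Agent.Lib.MP_6179b0_nt.T.TDefs

/-!
# A nonvanishing determinant
-/

set_option autoImplicit false

namespace Pool.Agent.Lib.MP_6179b0_nt.T

open Finset Polynomial

theorem TNonvanish_poly (D : ℕ) (hD : 1 ≤ D) (a b : ℚ) (n m : Fin (2 * D + 1) → ℚ)
    (hinj : Function.Injective n) (h0 : ∀ k, n k ≠ 0)
    (hnm : ∀ k, n k * m k ^ 2 = n k ^ 2 + a * n k + b) (U V : ℚ[X])
    (hU : U.natDegree ≤ D) (hV : V.natDegree ≤ D - 1) (hV0 : D = 1 → V = 0)
    (hV1 : V.eval 0 = 0) (h : ∀ k, U.eval (n k) + m k * V.eval (n k) = 0) : U = 0 ∧ V = 0 := by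
  classical
  have hq : (X ^ 2 + C a * X + C b : ℚ[X]).natDegree = 2 := by
    have : (X ^ 2 + C a * X + C b : ℚ[X]) = C 1 * X ^ 2 + C a * X + C b := by simp
    rw [this]
    exact natDegree_quadratic one_ne_zero
  have hq0 : (X ^ 2 + C a * X + C b : ℚ[X]) ≠ 0 := by
    intro h
    rw [h] at hq
    simp at hq
  have hP : X * U ^ 2 - (X ^ 2 + C a * X + C b) * V ^ 2 = 0 := by
    apply Polynomial.eq_zero_of_natDegree_lt_card_of_eval_eq_zero' _ (insert 0 (univ.image n))
    · intro i hi
      rw [mem_insert] at hi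
      rcases hi with hi | hi
      · subst hi
        simp [hV1]
      · obtain ⟨k, -, rfl⟩ := mem_image.1 hi
        have h1 : U.eval (n k) = - (m k * V.eval (n k)) := by linarith [h k]
        simp only [eval_sub, eval_mul, eval_pow, eval_X, eval_add, eval_C]
        rw [h1]
        linear_combination (V.eval (n k)) ^ 2 * hnm k
    · rw [card_insert_of_notMem, card_image_of_injective _ hinj, card_univ, Fintype.card_fin]
      · have h1 : (X * U ^ 2 : ℚ[X]).natDegree ≤ 1 + 2 * D := by
          refine natDegree_mul_le.trans ?_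
          have := natDegree_pow_le (p := U) (n := 2)
          have := natDegree_X_le (R := ℚ)
          omega
        have h2 : ((X ^ 2 + C a * X + C b) * V ^ 2 : ℚ[X]).natDegree ≤ 2 * D := by
          refine natDegree_mul_le.trans ?_
          have := natDegree_pow_le (p := V) (n := 2)
          rw [hq]
          omega
        have h3 := natDegree_sub_le (X * U ^ 2 : ℚ[X]) ((X ^ 2 + C a * X + C b) * V ^ 2)
        have h4 := max_le (h1.trans (show 1 + 2 * D ≤ 1 + 2 * D from le_rfl))
          (h2.trans (show 2 * D ≤ 1 + 2 * D by omega))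
        have h5 := h3.trans h4
        omega
      · intro hi
        obtain ⟨k, -, hk⟩ := mem_image.1 hi
        exact h0 k hk
  have hP' : X * U ^ 2 = (X ^ 2 + C a * X + C b) * V ^ 2 := sub_eq_zero.1 hP
  by_cases hV' : V = 0
  · refine ⟨?_, hV'⟩
    rw [hV'] at hP'
    simp at hP'
    exact hP'
  · exfalso
    have hU' : U ≠ 0 := by
      intro hU'
      rw [hU'] at hP'
      have : (X ^ 2 + C a * X + C b : ℚ[X]) * V ^ 2 ≠ 0 := mul_ne_zero hq0 (pow_ne_zero _ hV')
      apply this
      rw [← hP']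
      simp
    have h1 : (X * U ^ 2 : ℚ[X]).natDegree = 1 + 2 * U.natDegree := by
      rw [natDegree_mul X_ne_zero (pow_ne_zero _ hU'), natDegree_X, natDegree_pow]
    have h2 : ((X ^ 2 + C a * X + C b) * V ^ 2 : ℚ[X]).natDegree = 2 + 2 * V.natDegree := by
      rw [natDegree_mul hq0 (pow_ne_zero _ hV'), hq, natDegree_pow]
    rw [hP', h2] at h1
    omega

theorem TNonvanish_cols (D : ℕ) (hD : 1 ≤ D) (a b : ℚ) (n m : Fin (2 * D + 1) → ℚ)
    (hinj : Function.Injective n) (h0 : ∀ k, n k ≠ 0)
    (hnm : ∀ k, n k * m k ^ 2 = n k ^ 2 + a * n k + b) (c : Fin (2 * D) → ℚ)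
    (hc : ∀ k, ∑ j : Fin (2 * D), c j * fn D j (n k) (m k) = 0) : ∀ j, c j = 0 := by
  classical
  set c' : ℕ → ℚ := fun j => if h : j < 2 * D then c ⟨j, h⟩ else 0 with hc'
  have hcc : ∀ j : Fin (2 * D), c j = c' j := by
    intro j
    simp [hc']
  set U : ℚ[X] := ∑ j ∈ range (D + 1), C (c' j) * X ^ j with hU
  set V : ℚ[X] := ∑ i ∈ range (D - 1), C (c' (D + 1 + i)) * X ^ (i + 1) with hV
  have hUd : U.natDegree ≤ D := by
    rw [hU]
    apply natDegree_sum_le_of_forall_le
    intro j hj
    rw [mem_range] at hj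
    refine (natDegree_C_mul_X_pow_le _ _).trans ?_
    omega
  have hVd : V.natDegree ≤ D - 1 := by
    rw [hV]
    apply natDegree_sum_le_of_forall_le
    intro j hj
    rw [mem_range] at hj
    refine (natDegree_C_mul_X_pow_le _ _).trans ?_
    omega
  have hV0 : D = 1 → V = 0 := by
    intro h
    rw [hV, h]
    simp
  have hV1 : V.eval 0 = 0 := by
    rw [hV, eval_finsetSum]
    apply sum_eq_zero
    intro i _
    simp
  have hk : ∀ k, U.eval (n k) + m k * V.eval (n k) = 0 := by
    intro k
    have h1 := hc k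
    have h2 : ∑ j : Fin (2 * D), c j * fn D j (n k) (m k) =
        ∑ j ∈ range (2 * D), c' j * fn D j (n k) (m k) := by
      rw [Finset.sum_range]
      apply sum_congr rfl
      intro j _
      rw [hcc]
    rw [h2, show 2 * D = (D + 1) + (D - 1) by omega, sum_range_add] at h1
    rw [hU, hV, eval_finsetSum, eval_finsetSum, mul_sum, ← h1]
    congr 1
    · apply sum_congr rfl
      intro j hj
      rw [mem_range] at hj
      have hj' : j ≤ D := by omega
      simp [fn, dg, hj']
    · apply sum_congr rfl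
      intro j hj
      have hj' : ¬ (D + 1 + j ≤ D) := by omega
      have hj'' : D + 1 + j - D = j + 1 := by omega
      simp only [fn, dg, hj', if_false, hj'', eval_mul, eval_C, eval_pow, eval_X]
      ring
  obtain ⟨hU0, hVz⟩ := TNonvanish_poly D hD a b n m hinj h0 hnm U V hUd hVd hV0 hV1 hk
  intro j
  rw [hcc]
  obtain ⟨j, hj⟩ := j
  simp only
  by_cases hjD : j ≤ D
  · have h1 : U.coeff j = c' j := by
      rw [hU, finsetSum_coeff]
      rw [sum_eq_single j]
      · simp
      · intro i _ hij
        rw [coeff_C_mul_X_pow, if_neg (Ne.symm hij)]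
      · intro h
        exact absurd (mem_range.2 (by omega)) h
    rw [← h1, hU0, coeff_zero]
  · obtain ⟨i, rfl⟩ : ∃ i, j = D + 1 + i := ⟨j - (D + 1), by omega⟩
    have h1 : V.coeff (i + 1) = c' (D + 1 + i) := by
      rw [hV, finsetSum_coeff]
      rw [sum_eq_single i]
      · simp
      · intro l _ hil
        rw [coeff_C_mul_X_pow, if_neg]
        omega
      · intro h
        exact absurd (mem_range.2 (by omega)) h
    rw [← h1, hVz, coeff_zero]

/-- A tall rational matrix with independent columns has an invertible square submatrix. -/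
theorem TNonvanish_sub {N r : ℕ} (M : Matrix (Fin N) (Fin r) ℚ)
    (h : ∀ c : Fin r → ℚ, (∀ k, ∑ j, c j * M k j = 0) → ∀ j, c j = 0) :
    ∃ e : Fin r → Fin N, Function.Injective e ∧ (M.submatrix e id).det ≠ 0 := by
  classical
  have h1 : LinearIndependent ℚ M.transpose.row := by
    rw [Fintype.linearIndependent_iff]
    intro g hg
    apply h g
    intro k
    have := congrFun hg k
    simpa [Finset.sum_apply, Matrix.row, smul_eq_mul] using this
  have h2 : M.rank = r := by
    rw [← Matrix.rank_transpose, h1.rank_matrix, Fintype.card_fin]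
  obtain ⟨κ, f, hf, hsp, hli⟩ := exists_linearIndependent' ℚ M.row
  have : Finite κ := Finite.of_injective f hf
  have : Fintype κ := Fintype.ofFinite κ
  have h3 : Fintype.card κ = r := by
    rw [← h2, Matrix.rank_eq_finrank_span_row, ← hsp, finrank_span_eq_card hli]
  let eq : Fin r ≃ κ := (Fintype.equivFinOfCardEq h3).symm
  refine ⟨f ∘ eq, hf.comp eq.injective, ?_⟩
  have h4 : LinearIndependent ℚ (M.submatrix (f ∘ eq) id).row := by
    have := hli.comp eq eq.injective
    exact this
  have h5 := Matrix.linearIndependent_rows_iff_isUnit.1 h4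
  exact ((Matrix.isUnit_iff_isUnit_det _).1 h5).ne_zero

theorem exists_det_ne (D : ℕ) (hD : 1 ≤ D) (a b : ℤ) (hb : b ≠ 0) (n m : Fin (2 * D + 1) → ℤ)
    (hinj : Function.Injective n) (h0 : ∀ k, n k ≠ 0)
    (hnm : ∀ k, n k * m k ^ 2 = n k ^ 2 + a * n k + b) :
    ∃ e : Fin (2 * D) → Fin (2 * D + 1), Function.Injective e ∧ (mat D (n ∘ e) (m ∘ e)).det ≠ 0 := by
  classical
  have _ := hb
  obtain ⟨e, he, hdet⟩ := TNonvanish_sub
    (Matrix.of fun (k : Fin (2 * D + 1)) (j : Fin (2 * D)) => fn D j ((n k : ℚ)) ((m k : ℚ))) (by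
      intro c hc
      apply TNonvanish_cols D hD (a : ℚ) (b : ℚ) (fun k => (n k : ℚ)) (fun k => (m k : ℚ))
      · intro x y hxy
        have hxy' : (n x : ℚ) = (n y : ℚ) := hxy
        exact hinj (by exact_mod_cast hxy')
      · intro k
        exact_mod_cast h0 k
      · intro k
        exact_mod_cast hnm k
      · intro k
        exact hc k)
  refine ⟨e, he, ?_⟩
  intro hzero
  apply hdet
  have h1 : (Int.castRingHom ℚ) ((mat D (n ∘ e) (m ∘ e)).det) = 0 := by
    rw [hzero]
    simp
  rw [RingHom.map_det] at h1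
  rw [← h1]
  congr 1
  ext k j
  simp only [Matrix.submatrix_apply, Matrix.of_apply, RingHom.mapMatrix_apply, Matrix.map_apply,
    mat, fn, Function.comp_apply, id, eq_intCast]
  split_ifs <;> push_cast <;> ring

end Pool.Agent.Lib.MP_6179b0_nt.T
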