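import Mathlib
import Pool.Agent.Lib.MP_6179b0_nt.T.TNonvanish
import Pool.Agent.Lib.MP_6179b0_nt.T.TDvd
import Pool.Agent.Lib.MP_6179b0_nt.T.TArch

/-!
# At most `2 * D` divisors in a class
-/

set_option autoImplicit false

namespace Pool.Agent.Lib.MP_6179b0_nt.T

open Finset

theorem core_cast (D : ℕ) (n m : Fin (2 * D) → ℤ) :
    (((mat D n m).det : ℤ) : ℝ) = (mat D (fun k => (n k : ℝ)) (fun k => (m k : ℝ))).det := by
  have h := RingHom.map_det (Int.castRingHom ℝ) (mat D n m)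
  rw [eq_intCast] at h
  rw [h]
  congr 1
  ext k j
  simp only [RingHom.mapMatrix_apply, Matrix.map_apply, mat, Matrix.of_apply, fn]
  split_ifs <;> simp

theorem core_pow (D τ μ g u : ℕ) (hg : 1 ≤ g) (hgu : g ≤ u) (hτ : τ ≤ D) (h1 : μ ≤ τ) (h2 : μ ≤ D - τ) :
    g ^ (2 * D * τ) * u ^ μ ^ 2 ≤ g ^ D ^ 2 * u ^ τ ^ 2 := by
  have hu : 1 ≤ u := hg.trans hgu
  obtain ⟨e, rfl⟩ : ∃ e, D = τ + e := ⟨D - τ, by omega⟩
  have h3 : μ ≤ e := by omega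
  rcases le_total τ e with h | h
  · apply Nat.mul_le_mul
    · apply Nat.pow_le_pow_right hg
      nlinarith
    · apply Nat.pow_le_pow_right hu
      exact Nat.pow_le_pow_left h1 2
  · obtain ⟨f, rfl⟩ : ∃ f, τ = e + f := ⟨τ - e, by omega⟩
    have e1 : 2 * (e + f + e) * (e + f) = (e + f + e) ^ 2 + (e + f + e) * f := by ring
    have e2 : (e + f + e) * f + e ^ 2 = (e + f) ^ 2 := by ring
    rw [e1, pow_add, mul_assoc]
    apply Nat.mul_le_mul_left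
    calc g ^ ((e + f + e) * f) * u ^ μ ^ 2 ≤ u ^ ((e + f + e) * f) * u ^ e ^ 2 := by
          apply Nat.mul_le_mul (Nat.pow_le_pow_left hgu _)
          exact Nat.pow_le_pow_right hu (Nat.pow_le_pow_left h3 2)
      _ = u ^ (e + f) ^ 2 := by rw [← pow_add, e2]

theorem class_card (δ' w : ℝ) (hδ' : 0 < δ') (hδ1 : δ' < 1 / 2) (hw : 0 < w) :
    ∃ (D : ℕ) (η δ : ℝ) (N₀ : ℕ), 1 ≤ D ∧ 0 < η ∧ 0 < δ ∧
      ∀ (a b : ℤ) (u v g : ℕ) (ν : ℝ), b.natAbs = u * v → Nat.Coprime u v → N₀ ≤ b.natAbs →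
        (b.natAbs : ℝ) ^ w ≤ u → (b.natAbs : ℝ) ^ (1 - δ) ≤ a → δ' ≤ ν → ν ≤ 1 - δ' →
        ∀ T : Finset ℤ, (∀ n ∈ T, n ∣ b ∧ IsSquare (n + b / n + a) ∧ Int.gcd n u = g ∧
          (b.natAbs : ℝ) ^ ν ≤ |(n : ℝ)| ∧ |(n : ℝ)| ≤ (b.natAbs : ℝ) ^ (ν + η)) → T.card ≤ 2 * D := by
  obtain ⟨D, hD1, hD2, hD3⟩ : ∃ D : ℕ, 1 ≤ D ∧ 2 / δ' ≤ D ∧ 30 / (δ' ^ 2 * w) ≤ D := by
    refine ⟨⌈2 / δ'⌉₊ + ⌈30 / (δ' ^ 2 * w)⌉₊ + 1, by omega, ?_, ?_⟩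
    · push_cast
      have h1 := Nat.le_ceil (2 / δ')
      have h2 : (0 : ℝ) ≤ (⌈30 / (δ' ^ 2 * w)⌉₊ : ℝ) := Nat.cast_nonneg _
      linarith
    · push_cast
      have h1 := Nat.le_ceil (30 / (δ' ^ 2 * w))
      have h2 : (0 : ℝ) ≤ (⌈2 / δ'⌉₊ : ℝ) := Nat.cast_nonneg _
      linarith
  obtain ⟨η, δ, C, B₀, hη, hδ, hC, hB₀, harch⟩ := arch_bound D hD1 δ' hδ' hδ1
  refine ⟨D, η, δ, ⌈B₀⌉₊ + ⌈C⌉₊ + 2, hD1, hη, hδ, ?_⟩
  intro a b u v g ν hbuv huv hN huw ha hν hν' T hT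
  by_contra hcard
  rw [not_le] at hcard
  obtain ⟨B, hB⟩ : ∃ B : ℝ, B = (b.natAbs : ℝ) := ⟨_, rfl⟩
  rw [← hB] at huw ha hT
  have hD1' : (1 : ℝ) ≤ D := by exact_mod_cast hD1
  have hNR : (⌈B₀⌉₊ : ℝ) + ⌈C⌉₊ + 2 ≤ B := by rw [hB]; exact_mod_cast hN
  have hBB₀ : B₀ ≤ B := by
    have h1 := Nat.le_ceil B₀
    have h2 : (0 : ℝ) ≤ (⌈C⌉₊ : ℝ) := Nat.cast_nonneg _
    linarith
  have hBC : C < B := by
    have h1 := Nat.le_ceil C
    have h2 : (0 : ℝ) ≤ (⌈B₀⌉₊ : ℝ) := Nat.cast_nonneg _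
    linarith
  have hB1 : 1 ≤ B := hB₀.trans hBB₀
  have hB0 : 0 < B := by linarith
  have hb0 : b ≠ 0 := by
    rintro rfl
    simp at hN
  have hbabs : |(b : ℝ)| = B := by rw [hB, Nat.cast_natAbs, Int.cast_abs]
  have huv0 : u * v ≠ 0 := by rw [← hbuv]; exact Int.natAbs_ne_zero.2 hb0
  have hu0 : u ≠ 0 := left_ne_zero_of_mul huv0
  have hv0 : v ≠ 0 := right_ne_zero_of_mul huv0
  -- choose the points
  obtain ⟨T', hT'T, hT'card⟩ := Finset.exists_subset_card_eq (by omega : 2 * D + 1 ≤ T.card)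
  obtain ⟨n, hn⟩ : ∃ n : Fin (2 * D + 1) → ℤ, Function.Injective n ∧ ∀ k, n k ∈ T := by
    refine ⟨fun k => ((T'.equivFinOfCardEq hT'card).symm k : ℤ), ?_, ?_⟩
    · intro i j hij
      exact (T'.equivFinOfCardEq hT'card).symm.injective (Subtype.ext hij)
    · intro k
      exact hT'T ((T'.equivFinOfCardEq hT'card).symm k).2
  obtain ⟨hninj, hnT⟩ := hn
  have hn0 : ∀ k, n k ≠ 0 := by
    intro k hk
    have h1 := (hT _ (hnT k)).1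
    rw [hk, zero_dvd_iff] at h1
    exact hb0 h1
  have hsq : ∀ k, ∃ m : ℤ, 0 ≤ m ∧ n k + b / n k + a = m ^ 2 := by
    intro k
    obtain ⟨m, hm⟩ := (hT _ (hnT k)).2.1
    exact ⟨|m|, abs_nonneg _, by rw [hm, sq_abs]; ring⟩
  choose m hm0 hm using hsq
  have hnm : ∀ k, n k * m k ^ 2 = n k ^ 2 + a * n k + b := by
    intro k
    have h1 := Int.mul_ediv_cancel' (hT _ (hnT k)).1
    rw [← hm k]
    linear_combination h1
  obtain ⟨e, hinj, hdet⟩ := exists_det_ne D hD1 a b hb0 n m hninj hn0 hnm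
  have hν0 : 0 ≤ ν := by linarith
  obtain ⟨τ, hτ, hτ'⟩ : ∃ τ : ℕ, (τ : ℝ) ≤ ν * D ∧ ν * D < τ + 1 :=
    ⟨⌊ν * D⌋₊, Nat.floor_le (by positivity), Nat.lt_floor_add_one _⟩
  have hτD : τ ≤ D := by
    have h1 : (τ : ℝ) ≤ D := by nlinarith
    exact_mod_cast h1
  -- divisibility
  obtain ⟨r, hr⟩ : ∃ r : Fin (2 * D) → ℤ, ∀ k, n (e k) = (g : ℤ) * r k ∧ r k ∣ (v : ℤ) := by
    have h1 : ∀ k : Fin (2 * D), ∃ r : ℤ, n (e k) = (g : ℤ) * r ∧ r ∣ (v : ℤ) := by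
      intro k
      obtain ⟨hd, -, hgcd, -, -⟩ := hT _ (hnT (e k))
      have h2 : (n (e k)).natAbs ∣ u * v := by
        rw [← hbuv]
        exact Int.natAbs_dvd_natAbs.2 hd
      have h3 : (n (e k)).natAbs = Nat.gcd (n (e k)).natAbs u * Nat.gcd (n (e k)).natAbs v := by
        rw [← Nat.Coprime.gcd_mul _ huv]
        exact (Nat.gcd_eq_left h2).symm
      have h4 : Nat.gcd (n (e k)).natAbs u = g := by
        rw [← hgcd, Int.gcd, Int.natAbs_natCast]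
      rw [h4] at h3
      have h5 : (g : ℤ) ∣ n (e k) := by
        rw [← Int.natAbs_dvd_natAbs, Int.natAbs_natCast]
        exact ⟨_, h3⟩
      obtain ⟨r, hr⟩ := h5
      refine ⟨r, hr, ?_⟩
      have h6 : g ≠ 0 := by
        rintro rfl
        rw [zero_mul] at h3
        exact hn0 (e k) (Int.natAbs_eq_zero.1 h3)
      have h7 : r.natAbs = Nat.gcd (n (e k)).natAbs v := by
        have h8 : (n (e k)).natAbs = g * r.natAbs := by
          rw [hr, Int.natAbs_mul, Int.natAbs_natCast]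
        exact Nat.eq_of_mul_eq_mul_left (Nat.pos_of_ne_zero h6) (h8.symm.trans h3)
      rw [← Int.natAbs_dvd_natAbs, Int.natAbs_natCast, h7]
      exact Nat.gcd_dvd_right _ _
    choose r hr using h1
    exact ⟨r, hr⟩
  have hg1 : 1 ≤ g := by
    rw [Nat.one_le_iff_ne_zero]
    rintro rfl
    have h1 := (hr ⟨0, by omega⟩).1
    rw [Nat.cast_zero, zero_mul] at h1
    exact hn0 _ h1
  have hgu : g ≤ u := by
    obtain ⟨-, -, hgcd, -, -⟩ := hT _ (hnT (e ⟨0, by omega⟩))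
    rw [← hgcd, Int.gcd, Int.natAbs_natCast]
    exact Nat.gcd_le_right _ (Nat.pos_of_ne_zero hu0)
  have hdvd := dvd_det D τ hτD (g : ℤ) (v : ℤ) r (m ∘ e) (fun k => (hr k).2)
  have hne : (fun k => (g : ℤ) * r k) = n ∘ e := funext fun k => (hr k).1.symm
  rw [hne] at hdvd
  have hv0' : ((v : ℤ) ^ τ ^ 2 * (mat D (n ∘ e) (m ∘ e)).det) ≠ 0 :=
    mul_ne_zero (pow_ne_zero _ (by exact_mod_cast hv0)) hdet
  have hle := Int.natAbs_le_of_dvd_ne_zero hdvd hv0'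
  have hleR : (g : ℝ) ^ D ^ 2 * ∏ k, |(r k : ℝ)| ^ τ ≤
      (v : ℝ) ^ τ ^ 2 * |(((mat D (n ∘ e) (m ∘ e)).det : ℤ) : ℝ)| := by
    generalize (mat D (n ∘ e) (m ∘ e)).det = dt at hle
    have h1 : (((((g : ℤ) ^ D ^ 2 * ∏ k, r k ^ τ).natAbs : ℕ)) : ℝ) ≤
      ((((v : ℤ) ^ τ ^ 2 * dt).natAbs : ℕ) : ℝ) := by exact_mod_cast hle
    rw [Nat.cast_natAbs, Nat.cast_natAbs, Int.cast_abs, Int.cast_abs] at h1
    push_cast at h1
    rw [abs_mul, abs_mul, Finset.abs_prod, abs_pow, abs_pow, Nat.abs_cast, Nat.abs_cast] at h1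
    simpa only [abs_pow] using h1
  -- archimedean bound
  have hdetle : |(((mat D (n ∘ e) (m ∘ e)).det : ℤ) : ℝ)| ≤ C * B ^ ((τ : ℝ) ^ 2 + 5 * D) := by
    rw [core_cast]
    have hmm : (fun k => (((m ∘ e) k : ℤ) : ℝ)) =
        fun k => √((a : ℝ) + (((n ∘ e) k : ℤ) : ℝ) + (b : ℝ) / (((n ∘ e) k : ℤ) : ℝ)) := by
      funext k
      have h1 : ((b / n (e k) : ℤ) : ℝ) = (b : ℝ) / (n (e k) : ℝ) :=
        Int.cast_div (hT _ (hnT (e k))).1 (by exact_mod_cast hn0 (e k))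
      have h2 : (a : ℝ) + (n (e k) : ℝ) + (b : ℝ) / (n (e k) : ℝ) = ((m (e k) : ℤ) : ℝ) ^ 2 := by
        rw [← h1]
        have := hm (e k)
        have h3 : ((n (e k) + b / n (e k) + a : ℤ) : ℝ) = ((m (e k) ^ 2 : ℤ) : ℝ) := by rw [this]
        push_cast at h3
        linarith
      simp only [Function.comp]
      rw [h2, Real.sqrt_sq]
      exact_mod_cast hm0 (e k)
    rw [hmm]
    apply harch B a b ν (fun k => (((n ∘ e) k : ℤ) : ℝ)) τ hBB₀ hbabs ha hν hν'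
    · intro k
      exact (hT _ (hnT (e k))).2.2.2.1
    · intro k
      exact (hT _ (hnT (e k))).2.2.2.2
    · exact hτ
    · exact hτ'
  -- lower bound
  have hprod : B ^ (2 * (τ : ℝ) ^ 2) ≤ (g : ℝ) ^ (2 * D * τ) * ∏ k, |(r k : ℝ)| ^ τ := by
    have h1 : (g : ℝ) ^ (2 * D * τ) * ∏ k, |(r k : ℝ)| ^ τ = ∏ k, |(n (e k) : ℝ)| ^ τ := by
      have h2 : (g : ℝ) ^ (2 * D * τ) = ∏ _k : Fin (2 * D), (g : ℝ) ^ τ := by
        rw [Finset.prod_const, Finset.card_univ, Fintype.card_fin, ← pow_mul]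
        congr 1
        ring
      rw [h2, ← Finset.prod_mul_distrib]
      apply Finset.prod_congr rfl
      intro k _
      rw [(hr k).1]
      push_cast
      rw [abs_mul, mul_pow, Nat.abs_cast]
    rw [h1]
    have h3 : ∏ _k : Fin (2 * D), B ^ (ν * τ) ≤ ∏ k, |(n (e k) : ℝ)| ^ τ := by
      apply Finset.prod_le_prod
      · intro k _
        positivity
      · intro k _
        rw [Real.rpow_mul hB0.le, Real.rpow_natCast]
        exact pow_le_pow_left₀ (by positivity) (hT _ (hnT (e k))).2.2.2.1 _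
    refine le_trans ?_ h3
    rw [Finset.prod_const, Finset.card_univ, Fintype.card_fin,
      ← Real.rpow_natCast (B ^ (ν * (τ : ℝ))) (2 * D), ← Real.rpow_mul hB0.le]
    apply Real.rpow_le_rpow_of_exponent_le hB1
    push_cast
    have : (0 : ℝ) ≤ τ := Nat.cast_nonneg _
    nlinarith
  obtain ⟨μ, hμ⟩ : ∃ μ : ℕ, μ = min τ (D - τ) := ⟨_, rfl⟩
  have hμ1 : μ ≤ τ := by rw [hμ]; exact min_le_left _ _
  have hμ2 : μ ≤ D - τ := by rw [hμ]; exact min_le_right _ _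
  have hμR : δ' * D / 2 ≤ (μ : ℝ) := by
    have h0 : 2 ≤ δ' * D := by
      rw [div_le_iff₀ hδ'] at hD2
      linarith
    have h1 : δ' * D / 2 ≤ (τ : ℝ) := by nlinarith
    have h2 : δ' * D / 2 ≤ ((D - τ : ℕ) : ℝ) := by
      rw [Nat.cast_sub hτD]
      nlinarith
    rw [hμ]
    rcases min_choice τ (D - τ) with h | h <;> rw [h]
    · exact h1
    · exact h2
  have hpow := core_pow D τ μ g u hg1 hgu hτD hμ1 hμ2
  have hpowR : (g : ℝ) ^ (2 * D * τ) * (u : ℝ) ^ μ ^ 2 ≤ (g : ℝ) ^ D ^ 2 * (u : ℝ) ^ τ ^ 2 := by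
    exact_mod_cast hpow
  have hgpos : (0 : ℝ) < g := by exact_mod_cast hg1
  have hupos : (0 : ℝ) < u := by exact_mod_cast Nat.pos_of_ne_zero hu0
  have hvpos : (0 : ℝ) < v := by exact_mod_cast Nat.pos_of_ne_zero hv0
  have hBuv : B = u * v := by rw [hB, hbuv]; push_cast; ring
  -- combine
  have hfin : (u : ℝ) ^ μ ^ 2 ≤ C * B ^ (5 * (D : ℝ)) := by
    have h1 : (g : ℝ) ^ (2 * D * τ) * ((g : ℝ) ^ D ^ 2 * ∏ k, |(r k : ℝ)| ^ τ) ≤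
        (g : ℝ) ^ (2 * D * τ) * ((v : ℝ) ^ τ ^ 2 * (C * B ^ ((τ : ℝ) ^ 2 + 5 * D))) := by
      apply mul_le_mul_of_nonneg_left _ (by positivity)
      exact hleR.trans (mul_le_mul_of_nonneg_left hdetle (by positivity))
    have h2 : (g : ℝ) ^ D ^ 2 * B ^ (2 * (τ : ℝ) ^ 2) ≤
        (g : ℝ) ^ (2 * D * τ) * ((v : ℝ) ^ τ ^ 2 * (C * B ^ ((τ : ℝ) ^ 2 + 5 * D))) := by
      refine le_trans ?_ h1
      calc (g : ℝ) ^ D ^ 2 * B ^ (2 * (τ : ℝ) ^ 2)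
          ≤ (g : ℝ) ^ D ^ 2 * ((g : ℝ) ^ (2 * D * τ) * ∏ k, |(r k : ℝ)| ^ τ) :=
            mul_le_mul_of_nonneg_left hprod (by positivity)
        _ = _ := by ring
    have h3 : (g : ℝ) ^ (2 * D * τ) * (u : ℝ) ^ μ ^ 2 * B ^ (2 * (τ : ℝ) ^ 2) ≤
        (g : ℝ) ^ (2 * D * τ) * (C * B ^ (5 * (D : ℝ))) * B ^ (2 * (τ : ℝ) ^ 2) := by
      calc (g : ℝ) ^ (2 * D * τ) * (u : ℝ) ^ μ ^ 2 * B ^ (2 * (τ : ℝ) ^ 2)
          ≤ (g : ℝ) ^ D ^ 2 * (u : ℝ) ^ τ ^ 2 * B ^ (2 * (τ : ℝ) ^ 2) :=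
            mul_le_mul_of_nonneg_right hpowR (by positivity)
        _ = (u : ℝ) ^ τ ^ 2 * ((g : ℝ) ^ D ^ 2 * B ^ (2 * (τ : ℝ) ^ 2)) := by ring
        _ ≤ (u : ℝ) ^ τ ^ 2 * ((g : ℝ) ^ (2 * D * τ) *
              ((v : ℝ) ^ τ ^ 2 * (C * B ^ ((τ : ℝ) ^ 2 + 5 * D)))) :=
            mul_le_mul_of_nonneg_left h2 (by positivity)
        _ = (g : ℝ) ^ (2 * D * τ) * (C * ((u * v : ℝ) ^ τ ^ 2 * B ^ ((τ : ℝ) ^ 2 + 5 * D))) := by
            rw [mul_pow]; ring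
        _ = (g : ℝ) ^ (2 * D * τ) * (C * B ^ (5 * (D : ℝ))) * B ^ (2 * (τ : ℝ) ^ 2) := by
            rw [← hBuv, ← Real.rpow_natCast B (τ ^ 2), ← Real.rpow_add hB0]
            have : ((τ ^ 2 : ℕ) : ℝ) + ((τ : ℝ) ^ 2 + 5 * D) = 5 * D + 2 * (τ : ℝ) ^ 2 := by
              push_cast; ring
            rw [this, Real.rpow_add hB0]
            ring
    have h4 : (0 : ℝ) < B ^ (2 * (τ : ℝ) ^ 2) := by positivity
    have h5 := le_of_mul_le_mul_right h3 h4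
    exact le_of_mul_le_mul_left h5 (by positivity)
  have hfin2 : B ^ (w * (μ : ℝ) ^ 2) ≤ (u : ℝ) ^ μ ^ 2 := by
    rw [Real.rpow_mul hB0.le]
    have : ((μ : ℝ) ^ 2) = ((μ ^ 2 : ℕ) : ℝ) := by push_cast; ring
    rw [this, Real.rpow_natCast]
    exact pow_le_pow_left₀ (by positivity) huw _
  have hexp : 5 * (D : ℝ) + 1 ≤ w * (μ : ℝ) ^ 2 := by
    have h0 : 30 ≤ δ' ^ 2 * w * D := by
      rw [div_le_iff₀ (by positivity)] at hD3
      linarith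
    have h1 : (δ' * D / 2) ^ 2 ≤ (μ : ℝ) ^ 2 := pow_le_pow_left₀ (by positivity) hμR 2
    have h2 : w * (δ' * D / 2) ^ 2 ≤ w * (μ : ℝ) ^ 2 := mul_le_mul_of_nonneg_left h1 hw.le
    have h3 : w * (δ' * D / 2) ^ 2 = (δ' ^ 2 * w * D) * (D / 4) := by ring
    have h4 : 30 * ((D : ℝ) / 4) ≤ (δ' ^ 2 * w * D) * (D / 4) :=
      mul_le_mul_of_nonneg_right h0 (by positivity)
    linarith
  have hcontr : B * B ^ (5 * (D : ℝ)) ≤ C * B ^ (5 * (D : ℝ)) := by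
    calc B * B ^ (5 * (D : ℝ)) = B ^ (5 * (D : ℝ) + 1) := by
          rw [Real.rpow_add hB0, Real.rpow_one]; ring
      _ ≤ B ^ (w * (μ : ℝ) ^ 2) := Real.rpow_le_rpow_of_exponent_le hB1 hexp
      _ ≤ C * B ^ (5 * (D : ℝ)) := hfin2.trans hfin
  have : B ≤ C := le_of_mul_le_mul_right hcontr (by positivity)
  linarith

end Pool.Agent.Lib.MP_6179b0_nt.T
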