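import Mathlib
import Pool.Agent.Lib.MP_6179b0_nt.Final
import Pool.Agent.Lib.MP_6179b0_nt.T.TCore
import Pool.Agent.Lib.MP_6179b0_nt.T.TRankin
import Pool.Agent.Lib.MP_6179b0_nt.T.TCoprime

/-!
# The negated form of the question for large `a`
-/

set_option autoImplicit false

namespace Pool.Agent.Lib.MP_6179b0_nt.T

open Finset Filter

/-- few divisors have small absolute value -/
theorem final_small (b : ℤ) (hb : b ≠ 0) (X : ℝ) :
    (((main_dv b.natAbs).filter (fun n : ℤ => |(n : ℝ)| ≤ X)).card : ℝ) ≤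
      2 * ((b.natAbs.divisors.filter (fun d : ℕ => (d : ℝ) ≤ X)).card : ℝ) := by
  have hb0 : b.natAbs ≠ 0 := by simpa using hb
  have h1 : (main_dv b.natAbs).filter (fun n : ℤ => |(n : ℝ)| ≤ X) ⊆
      ((b.natAbs.divisors.filter (fun d : ℕ => (d : ℝ) ≤ X)).image (fun d : ℕ => (d : ℤ))) ∪
      ((b.natAbs.divisors.filter (fun d : ℕ => (d : ℝ) ≤ X)).image (fun d : ℕ => -(d : ℤ))) := by
    intro n hn
    rw [Finset.mem_filter, main_mem_dv _ hb0] at hn
    have h2 : n.natAbs ∣ b.natAbs := by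
      have := Int.natAbs_dvd_natAbs.2 hn.1
      simpa using this
    have h3 : n.natAbs ∈ b.natAbs.divisors.filter (fun d : ℕ => (d : ℝ) ≤ X) := by
      rw [Finset.mem_filter, Nat.mem_divisors]
      refine ⟨⟨h2, hb0⟩, ?_⟩
      rw [Nat.cast_natAbs, Int.cast_abs]
      exact hn.2
    rw [Finset.mem_union, Finset.mem_image, Finset.mem_image]
    rcases le_total 0 n with h | h
    · left
      exact ⟨n.natAbs, h3, by rw [Int.natCast_natAbs, abs_of_nonneg h]⟩
    · right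
      exact ⟨n.natAbs, h3, by rw [Int.natCast_natAbs, abs_of_nonpos h, neg_neg]⟩
  have h4 := (Finset.card_le_card h1).trans (Finset.card_union_le _ _)
  have h5 := h4.trans (Nat.add_le_add Finset.card_image_le Finset.card_image_le)
  have h6 : (((main_dv b.natAbs).filter (fun n : ℤ => |(n : ℝ)| ≤ X)).card : ℝ) ≤
    (((b.natAbs.divisors.filter (fun d : ℕ => (d : ℝ) ≤ X)).card +
      (b.natAbs.divisors.filter (fun d : ℕ => (d : ℝ) ≤ X)).card : ℕ) : ℝ) := by exact_mod_cast h5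
  push_cast at h6
  linarith

theorem final_asym2 (M ε : ℝ) (hM : 1 ≤ M) (hε : 0 < ε) : ∀ᶠ L : ℝ in atTop,
    Real.log M ≤ ε * L / Real.log L ∧ 1 < Real.log L ∧ 0 < L := by
  filter_upwards [final_asym M ε hM hε, eventually_ge_atTop 3] with L h1 h2
  have hL0 : 0 < L := by linarith
  have hlog1 : 1 < Real.log L := by
    rw [Real.lt_log_iff_exp_lt hL0]
    have := Real.exp_one_lt_d9
    linarith
  refine ⟨?_, hlog1, hL0⟩
  rw [le_div_iff₀ (by linarith)]
  have h3 : 0 ≤ M * Real.log (1 + L) := mul_nonneg (by linarith) (Real.log_nonneg (by linarith))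
  nlinarith

theorem large_a (ε : ℝ) (hε : 0 < ε) : ∃ (δ : ℝ) (N : ℕ), 0 < δ ∧ ∀ a b : ℤ, (N : ℤ) ≤ |b| →
    |(b : ℝ)| ^ (1 - δ) ≤ |(a : ℝ)| →
      Real.log (({n : ℤ | n ∣ b ∧ IsSquare (n + b / n + a)}.ncard : ℕ) : ℝ) ≤
        ε * Real.log |(b : ℝ)| / Real.log (Real.log |(b : ℝ)|) := by
  obtain ⟨δ', N₁, hδ', hδ1, hsmall⟩ := small_divisors (ε / 2) (by positivity)
  obtain ⟨w, N₂, hw, hfac⟩ := exists_factor (ε / 2) (by positivity)
  obtain ⟨D, η, δc, N₃, hD, hη, hδc, hclass⟩ := class_card δ' w hδ' hδ1 hw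
  obtain ⟨δ, hδ⟩ : ∃ δ : ℝ, δ = min δc (δ' / 2) := ⟨_, rfl⟩
  have hδ0 : 0 < δ := by rw [hδ]; positivity
  have hδc' : δ ≤ δc := by rw [hδ]; exact min_le_left _ _
  have hδδ' : δ ≤ δ' / 2 := by rw [hδ]; exact min_le_right _ _
  obtain ⟨I, hI⟩ : ∃ I : ℕ, I = ⌊1 / η⌋₊ + 1 := ⟨_, rfl⟩
  obtain ⟨M, hM⟩ : ∃ M : ℝ, M = 4 + 2 * D * I := ⟨_, rfl⟩
  have hM1 : 1 ≤ M := by
    have : (0 : ℝ) ≤ 2 * D * I := by positivity
    linarith
  have hev : ∀ᶠ B : ℕ in atTop, (Real.log M ≤ (ε / 2) * Real.log B / Real.log (Real.log B) ∧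
      1 < Real.log (Real.log B) ∧ 0 < Real.log B) ∧ 2 < (B : ℝ) ^ (δ' / 2) := by
    have h1 : Tendsto (fun B : ℕ => Real.log (B : ℝ)) atTop atTop :=
      Real.tendsto_log_atTop.comp tendsto_natCast_atTop_atTop
    have h2 : Tendsto (fun B : ℕ => (B : ℝ) ^ (δ' / 2)) atTop atTop :=
      (tendsto_rpow_atTop (by positivity)).comp tendsto_natCast_atTop_atTop
    exact (h1.eventually (final_asym2 M (ε / 2) hM1 (by positivity))).and
      (h2.eventually (eventually_gt_atTop 2))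
  obtain ⟨N₄, hN₄⟩ := eventually_atTop.1 hev
  refine ⟨δ, N₁ + N₂ + N₃ + N₄ + 2, hδ0, ?_⟩
  intro a b hN hab
  obtain ⟨B, hB⟩ : ∃ B : ℕ, B = b.natAbs := ⟨_, rfl⟩
  have hBabs : |(b : ℝ)| = (B : ℝ) := by rw [hB, Nat.cast_natAbs, Int.cast_abs]
  have hNB : N₁ + N₂ + N₃ + N₄ + 2 ≤ B := by
    have h1 : ((B : ℕ) : ℤ) = |b| := by rw [hB]; exact Int.natCast_natAbs b
    rw [← h1] at hN
    exact_mod_cast hN
  have hb0 : b ≠ 0 := by
    rintro rfl
    simp at hB
    omega
  obtain ⟨⟨hlogM, hLL, hL⟩, hB2⟩ := hN₄ B (by omega)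
  rw [hBabs] at hab ⊢
  have hBR : (2 : ℝ) ≤ B := by exact_mod_cast (by omega : 2 ≤ B)
  have hB0 : (0 : ℝ) < B := by linarith
  have hB1 : (1 : ℝ) ≤ B := by linarith
  obtain ⟨E, hE⟩ : ∃ E : ℝ, E = Real.exp (ε / 2 * Real.log B / Real.log (Real.log B)) := ⟨_, rfl⟩
  have hE0 : 0 < E := by rw [hE]; exact Real.exp_pos _
  have hdv0 : b.natAbs ≠ 0 := by simpa using hb0
  -- the set as a finset
  obtain ⟨AF, hAF⟩ : ∃ AF : Finset ℤ, AF = (main_dv b.natAbs).filter
      (fun n => IsSquare (n + b / n + a)) := ⟨_, rfl⟩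
  have hset : {n : ℤ | n ∣ b ∧ IsSquare (n + b / n + a)} = (AF : Set ℤ) := by
    ext n
    rw [hAF, Finset.coe_filter]
    simp only [Set.mem_setOf_eq, main_mem_dv _ hdv0, Int.dvd_natAbs]
  rw [hset, Set.ncard_coe_finset]
  suffices hmain : (AF.card : ℝ) ≤ M * E by
    rcases Nat.eq_zero_or_pos AF.card with h0 | hpos
    · rw [h0, Nat.cast_zero, Real.log_zero]
      positivity
    · have hposR : (0 : ℝ) < AF.card := by exact_mod_cast hpos
      calc Real.log (AF.card : ℝ) ≤ Real.log (M * E) := Real.log_le_log hposR hmain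
        _ = Real.log M + ε / 2 * Real.log B / Real.log (Real.log B) := by
            rw [Real.log_mul (by linarith) hE0.ne', hE, Real.log_exp]
        _ ≤ ε / 2 * Real.log B / Real.log (Real.log B) + ε / 2 * Real.log B / Real.log (Real.log B) := by
            linarith
        _ = ε * Real.log B / Real.log (Real.log B) := by ring
  rcases hfac B (by omega) with htriv | ⟨u, v, hBuv, huv, huw, hud⟩
  · -- few divisors
    rw [← hE] at htriv
    have h1 : AF.card ≤ 2 * b.natAbs.divisors.card := by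
      rw [← main_card_dv, hAF]
      exact Finset.card_filter_le _ _
    have h2 : (AF.card : ℝ) ≤ 2 * (B.divisors.card : ℝ) := by
      rw [hB]; exact_mod_cast h1
    have h3 : 2 * E ≤ M * E := by
      apply mul_le_mul_of_nonneg_right _ hE0.le
      have : (0 : ℝ) ≤ 2 * D * I := by positivity
      linarith
    linarith
  rw [← hE] at hud
  have hs := hsmall B (by omega)
  rw [← hE] at hs
  -- split
  obtain ⟨S₁, hS₁⟩ : ∃ S₁ : Finset ℤ, S₁ = AF.filter (fun n : ℤ => |(n : ℝ)| ≤ (B : ℝ) ^ δ') := ⟨_, rfl⟩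
  obtain ⟨S₂, hS₂⟩ : ∃ S₂ : Finset ℤ, S₂ = AF.filter (fun n : ℤ => |((b / n : ℤ) : ℝ)| ≤ (B : ℝ) ^ δ') :=
    ⟨_, rfl⟩
  obtain ⟨S₃, hS₃⟩ : ∃ S₃ : Finset ℤ, S₃ = AF.filter (fun n : ℤ => (B : ℝ) ^ δ' < |(n : ℝ)| ∧
      (B : ℝ) ^ δ' < |((b / n : ℤ) : ℝ)|) := ⟨_, rfl⟩
  have hcov : AF ⊆ S₁ ∪ S₂ ∪ S₃ := by
    intro n hn
    rw [Finset.mem_union, Finset.mem_union, hS₁, hS₂, hS₃, Finset.mem_filter, Finset.mem_filter,
      Finset.mem_filter]
    by_cases h1 : |(n : ℝ)| ≤ (B : ℝ) ^ δ'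
    · exact Or.inl (Or.inl ⟨hn, h1⟩)
    · by_cases h2 : |((b / n : ℤ) : ℝ)| ≤ (B : ℝ) ^ δ'
      · exact Or.inl (Or.inr ⟨hn, h2⟩)
      · exact Or.inr ⟨hn, not_le.1 h1, not_le.1 h2⟩
  have hAFmem : ∀ n ∈ AF, n ∣ b ∧ IsSquare (n + b / n + a) := by
    intro n hn
    rw [hAF, Finset.mem_filter, main_mem_dv _ hdv0, Int.dvd_natAbs] at hn
    exact hn
  have hS₁card : (S₁.card : ℝ) ≤ 2 * E := by
    have h1 : S₁ ⊆ (main_dv b.natAbs).filter (fun n : ℤ => |(n : ℝ)| ≤ (B : ℝ) ^ δ') := by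
      rw [hS₁, hAF]
      exact Finset.filter_subset_filter _ (Finset.filter_subset _ _)
    have h2 : (S₁.card : ℝ) ≤
        (((main_dv b.natAbs).filter (fun n : ℤ => |(n : ℝ)| ≤ (B : ℝ) ^ δ')).card : ℝ) := by
      exact_mod_cast Finset.card_le_card h1
    have h3 := final_small b hb0 ((B : ℝ) ^ δ')
    rw [← hB] at h2 h3
    linarith
  have hS₂card : (S₂.card : ℝ) ≤ 2 * E := by
    have h1 : S₂.card ≤ ((main_dv b.natAbs).filter (fun n : ℤ => |(n : ℝ)| ≤ (B : ℝ) ^ δ')).card := by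
      apply Finset.card_le_card_of_injOn (fun n => b / n)
      · intro n hn
        rw [Finset.mem_coe, hS₂, Finset.mem_filter] at hn
        rw [Finset.mem_coe, Finset.mem_filter, main_mem_dv _ hdv0, Int.dvd_natAbs]
        exact ⟨Int.ediv_dvd_of_dvd (hAFmem n hn.1).1, hn.2⟩
      · intro n hn n' hn' hnn
        rw [Finset.mem_coe, hS₂, Finset.mem_filter] at hn hn'
        have e1 := Int.mul_ediv_cancel' (hAFmem n hn.1).1
        have e2 := Int.mul_ediv_cancel' (hAFmem n' hn'.1).1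
        have hnn' : b / n = b / n' := hnn
        rw [← hnn'] at e2
        have h3 : b / n ≠ 0 := by
          intro h
          rw [h, mul_zero] at e1
          exact hb0 e1.symm
        exact mul_right_cancel₀ h3 (e1.trans e2.symm)
    have h2 : (S₂.card : ℝ) ≤
        (((main_dv b.natAbs).filter (fun n : ℤ => |(n : ℝ)| ≤ (B : ℝ) ^ δ')).card : ℝ) := by
      exact_mod_cast h1
    have h3 := final_small b hb0 ((B : ℝ) ^ δ')
    rw [← hB] at h2 h3
    linarith
  have hS₃n : ∀ n ∈ S₃, n ∣ b ∧ IsSquare (n + b / n + a) ∧ (B : ℝ) ^ δ' < |(n : ℝ)| ∧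
      |(n : ℝ)| < (B : ℝ) ^ (1 - δ') ∧ |((b / n : ℤ) : ℝ)| < (B : ℝ) ^ (1 - δ') := by
    intro n hn
    rw [hS₃, Finset.mem_filter] at hn
    obtain ⟨h1, h2⟩ := hAFmem n hn.1
    have e1 := Int.mul_ediv_cancel' h1
    have e2 : |(n : ℝ)| * |((b / n : ℤ) : ℝ)| = B := by
      rw [← abs_mul, ← hBabs]
      congr 1
      exact_mod_cast e1
    have e3 : (B : ℝ) = (B : ℝ) ^ (1 - δ') * (B : ℝ) ^ δ' := by
      rw [← Real.rpow_add hB0]
      norm_num
    have hp : 0 < (B : ℝ) ^ δ' := by positivity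
    refine ⟨h1, h2, hn.2.1, ?_, ?_⟩
    · have h4 : |(n : ℝ)| * (B : ℝ) ^ δ' < |(n : ℝ)| * |((b / n : ℤ) : ℝ)| :=
        mul_lt_mul_of_pos_left hn.2.2 (hp.trans hn.2.1)
      rw [e2] at h4
      exact lt_of_mul_lt_mul_right (h4.trans_eq e3) hp.le
    · have h4 : (B : ℝ) ^ δ' * |((b / n : ℤ) : ℝ)| < |(n : ℝ)| * |((b / n : ℤ) : ℝ)| :=
        mul_lt_mul_of_pos_right hn.2.1 (hp.trans hn.2.2)
      rw [e2, mul_comm] at h4
      exact lt_of_mul_lt_mul_right (h4.trans_eq e3) hp.le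
  have hS₃card : (S₃.card : ℝ) ≤ 2 * D * I * E := by
    rcases S₃.eq_empty_or_nonempty with hemp | ⟨n₀, hn₀⟩
    · rw [hemp, Finset.card_empty, Nat.cast_zero]
      positivity
    -- a is positive
    have hapos : (B : ℝ) ^ (1 - δ) ≤ a := by
      obtain ⟨-, h2, -, h4, h5⟩ := hS₃n n₀ hn₀
      rcases le_total 0 (a : ℝ) with ha | ha
      · rwa [abs_of_nonneg ha] at hab
      · exfalso
        rw [abs_of_nonpos ha] at hab
        have h6 : 0 ≤ n₀ + b / n₀ + a := h2.nonneg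
        have h7 : (0 : ℝ) ≤ (n₀ : ℝ) + ((b / n₀ : ℤ) : ℝ) + a := by exact_mod_cast h6
        have h8 : 2 * (B : ℝ) ^ (1 - δ') < (B : ℝ) ^ (1 - δ) := by
          calc 2 * (B : ℝ) ^ (1 - δ') < (B : ℝ) ^ (δ' / 2) * (B : ℝ) ^ (1 - δ') :=
                mul_lt_mul_of_pos_right hB2 (by positivity)
            _ = (B : ℝ) ^ (δ' / 2 + (1 - δ')) := by rw [Real.rpow_add hB0]
            _ ≤ (B : ℝ) ^ (1 - δ) := Real.rpow_le_rpow_of_exponent_le hB1 (by linarith)
        have h9 := le_abs_self (n₀ : ℝ)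
        have h10 := le_abs_self ((b / n₀ : ℤ) : ℝ)
        linarith
    have hapos' : (B : ℝ) ^ (1 - δc) ≤ a :=
      le_trans (Real.rpow_le_rpow_of_exponent_le hB1 (by linarith)) hapos
    -- classes
    obtain ⟨key, hkey⟩ : ∃ key : ℤ → ℕ × ℕ, ∀ n, key n =
        (Int.gcd n u, ⌊(Real.log |(n : ℝ)| / Real.log B - δ') / η⌋₊) := ⟨_, fun n => rfl⟩
    have hmaps : ∀ n ∈ S₃, key n ∈ u.divisors ×ˢ Finset.range I := by
      intro n hn
      obtain ⟨h1, h2, h3, h4, h5⟩ := hS₃n n hn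
      have hu0 : u ≠ 0 := by
        rintro rfl
        rw [zero_mul] at hBuv
        omega
      have hpos : 0 < |(n : ℝ)| := lt_trans (by positivity) h3
      rw [hkey n, Finset.mem_product]
      refine ⟨?_, ?_⟩
      · rw [Nat.mem_divisors]
        refine ⟨?_, hu0⟩
        have : Int.gcd n u ∣ ((u : ℤ)).natAbs := Int.gcd_dvd_natAbs_right n (u : ℤ)
        rwa [Int.natAbs_natCast] at this
      · rw [Finset.mem_range, hI, Nat.lt_succ_iff]
        apply Nat.floor_le_floor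
        apply div_le_div_of_nonneg_right _ hη.le
        have h6 : Real.log |(n : ℝ)| ≤ (1 - δ') * Real.log B := by
          rw [← Real.log_rpow hB0]
          exact Real.log_le_log hpos h4.le
        have h7 : Real.log |(n : ℝ)| / Real.log B ≤ 1 - δ' := by
          rwa [div_le_iff₀ hL]
        linarith
    have hfib : ∀ k ∈ u.divisors ×ˢ Finset.range I, (S₃.filter (fun n => key n = k)).card ≤ 2 * D := by
      rintro ⟨g, i⟩ -
      rcases (S₃.filter (fun n => key n = (g, i))).eq_empty_or_nonempty with hemp | ⟨n₁, hn₁⟩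
      · rw [hemp, Finset.card_empty]; omega
      have hwin : ∀ n ∈ S₃.filter (fun n => key n = (g, i)), Int.gcd n u = g ∧
          (B : ℝ) ^ (δ' + i * η) ≤ |(n : ℝ)| ∧ |(n : ℝ)| ≤ (B : ℝ) ^ (δ' + i * η + η) ∧
          δ' + i * η ≤ 1 - δ' := by
        intro n hn
        rw [Finset.mem_filter] at hn
        obtain ⟨h1, h2, h3, h4, h5⟩ := hS₃n n hn.1
        have hk := hn.2
        rw [hkey n, Prod.mk.injEq] at hk
        obtain ⟨hk1, hk2⟩ := hk
        have hpos : 0 < |(n : ℝ)| := lt_trans (by positivity) h3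
        have h6 : δ' * Real.log B ≤ Real.log |(n : ℝ)| := by
          rw [← Real.log_rpow hB0]
          exact Real.log_le_log (by positivity) h3.le
        have h7 : Real.log |(n : ℝ)| ≤ (1 - δ') * Real.log B := by
          rw [← Real.log_rpow hB0]
          exact Real.log_le_log hpos h4.le
        have h8 : 0 ≤ (Real.log |(n : ℝ)| / Real.log B - δ') / η := by
          apply div_nonneg _ hη.le
          rw [sub_nonneg, le_div_iff₀ hL]
          exact h6
        have h9 : (i : ℝ) ≤ (Real.log |(n : ℝ)| / Real.log B - δ') / η := by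
          rw [← hk2]; exact Nat.floor_le h8
        have h10 : (Real.log |(n : ℝ)| / Real.log B - δ') / η < i + 1 := by
          rw [← hk2]; exact Nat.lt_floor_add_one _
        rw [le_div_iff₀ hη] at h9
        rw [div_lt_iff₀ hη] at h10
        have h11 : (δ' + i * η) * Real.log B ≤ Real.log |(n : ℝ)| := by
          rw [← le_div_iff₀ hL]
          linarith
        have h12 : Real.log |(n : ℝ)| ≤ (δ' + i * η + η) * Real.log B := by
          rw [← div_le_iff₀ hL]
          nlinarith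
        refine ⟨hk1, ?_, ?_, ?_⟩
        · rw [← Real.log_le_log_iff (by positivity) hpos, Real.log_rpow hB0]
          exact h11
        · rw [← Real.log_le_log_iff hpos (by positivity), Real.log_rpow hB0]
          exact h12
        · have h13 : Real.log |(n : ℝ)| / Real.log B ≤ 1 - δ' := by
            rwa [div_le_iff₀ hL]
          linarith
      apply hclass a b u v g (δ' + i * η) (by rw [← hB]; exact hBuv) huv (by rw [← hB]; omega)
        (by rw [← hB]; exact huw) (by rw [← hB]; exact hapos')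
      · have : (0 : ℝ) ≤ i * η := by positivity
        linarith
      · exact (hwin n₁ hn₁).2.2.2
      · intro n hn
        obtain ⟨h1, h2, h3, -⟩ := hwin n hn
        obtain ⟨h4, h5, -⟩ := hS₃n n (Finset.mem_filter.1 hn).1
        rw [← hB]
        exact ⟨h4, h5, h1, h2, h3⟩
    have hcard := Finset.card_le_mul_card_image_of_maps_to hmaps (2 * D) hfib
    rw [Finset.card_product, Finset.card_range] at hcard
    have h14 : (S₃.card : ℝ) ≤ ((2 * D * (u.divisors.card * I) : ℕ) : ℝ) := by exact_mod_cast hcard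
    push_cast at h14
    calc (S₃.card : ℝ) ≤ 2 * D * (u.divisors.card * I) := h14
      _ = 2 * D * I * u.divisors.card := by ring
      _ ≤ 2 * D * I * E := mul_le_mul_of_nonneg_left hud (by positivity)
  have hfinal : (AF.card : ℝ) ≤ S₁.card + S₂.card + S₃.card := by
    have h1 := Finset.card_le_card hcov
    have h2 := h1.trans (Finset.card_union_le _ _)
    have h3 := Finset.card_union_le S₁ S₂
    have h4 : AF.card ≤ S₁.card + S₂.card + S₃.card := by omega
    exact_mod_cast h4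
  rw [hM]
  linarith

end Pool.Agent.Lib.MP_6179b0_nt.T
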